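import Pool.Agent.W275.US.Defs

/-!
# The Euclidean space of tuples is, as a measure space, the product of the blocks
-/

set_option autoImplicit false

namespace Pool.Agent.W275.US

open MeasureTheory Set
open scoped ENNReal

theorem uncurry_mp (b : ℕ) (ι : Type) [Fintype ι] :
    MeasurePreserving (fun (g : Fin b → ι → ℝ) (q : Fin b × ι) => g q.1 q.2) volume volume := by
  have hm : Measurable (fun (g : Fin b → ι → ℝ) (q : Fin b × ι) => g q.1 q.2) := by
    rw [measurable_pi_iff]
    intro q
    exact (measurable_pi_apply q.2).comp (measurable_pi_apply q.1)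
  refine ⟨hm, ?_⟩
  symm
  rw [volume_pi]
  refine Measure.pi_eq fun s hs => ?_
  rw [Measure.map_apply hm (MeasurableSet.univ_pi hs)]
  have h1 : (fun (g : Fin b → ι → ℝ) (q : Fin b × ι) => g q.1 q.2) ⁻¹' (Set.pi univ s) =
      Set.pi univ (fun i : Fin b => Set.pi univ fun k : ι => s (i, k)) := by
    ext g
    simp only [mem_preimage, mem_pi, mem_univ, forall_const, Prod.forall]
  rw [h1, volume_pi, Measure.pi_pi, Fintype.prod_prod_type]
  refine Finset.prod_congr rfl fun i _ => ?_
  rw [volume_pi, Measure.pi_pi]

/-- the tuple of blocks of `x`, general index type -/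
noncomputable def blks (b : ℕ) (ι : Type) (x : EuclideanSpace ℝ (Fin b × ι)) (i : Fin b) :
    EuclideanSpace ℝ ι := WithLp.toLp 2 fun k => x (i, k)

/-- inverse of `blks` -/
noncomputable def cats (b : ℕ) (ι : Type) (v : Fin b → EuclideanSpace ℝ ι) :
    EuclideanSpace ℝ (Fin b × ι) := WithLp.toLp 2 fun q => v q.1 q.2

theorem cats_mp (b : ℕ) (ι : Type) [Fintype ι] :
    MeasurePreserving (cats b ι) volume volume := by
  have h1 : MeasurePreserving (fun (v : Fin b → EuclideanSpace ℝ ι) (i : Fin b) =>
      WithLp.ofLp (v i)) volume volume :=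
    volume_preserving_pi (fun _ => PiLp.volume_preserving_ofLp ι)
  exact (PiLp.volume_preserving_toLp (Fin b × ι)).comp ((uncurry_mp b ι).comp h1)

/-- `blks` as a measurable equivalence -/
noncomputable def bE (b : ℕ) (ι : Type) [Fintype ι] :
    EuclideanSpace ℝ (Fin b × ι) ≃ᵐ (Fin b → EuclideanSpace ℝ ι) where
  toFun := blks b ι
  invFun := cats b ι
  left_inv x := rfl
  right_inv v := rfl
  measurable_toFun := by
    refine Continuous.measurable ?_
    refine continuous_pi fun i => ?_
    exact (PiLp.continuous_toLp 2 _).comp (continuous_pi fun k => PiLp.continuous_apply 2 _ (i, k))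
  measurable_invFun := by
    refine Continuous.measurable ?_
    refine (PiLp.continuous_toLp 2 _).comp (continuous_pi fun q => ?_)
    exact (PiLp.continuous_apply 2 _ q.2).comp (continuous_apply q.1)

theorem blks_mp (b : ℕ) (ι : Type) [Fintype ι] :
    MeasurePreserving (blks b ι) volume volume :=
  (show MeasurePreserving (bE b ι).symm volume volume from cats_mp b ι).symm (bE b ι).symm

/-- the blocks of `x`: Lebesgue measure goes to the product of Lebesgue measures -/
theorem blk_mp (b d : ℕ) :
    MeasurePreserving (fun (x : X b d) (i : Fin b) => blk i x) volume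
      (Measure.pi fun _ : Fin b => (volume : Measure (E d))) := blks_mp b (Fin d)

theorem cat_mp (b d : ℕ) :
    MeasurePreserving (cat : (Fin b → E d) → X b d)
      (Measure.pi fun _ : Fin b => (volume : Measure (E d))) volume := cats_mp b (Fin d)

theorem zblk_mp (b d : ℕ) :
    MeasurePreserving (fun (z : Z b d) (i : Fin b) => zblk i z) volume
      (Measure.pi fun _ : Fin b => (volume : Measure (W d))) := blks_mp b (Fin d × Fin 1)

end Pool.Agent.W275.US
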