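import Pool.Agent.W275.US.Stm

/-!
# KLS for unconditional sums: elementary lemmas for the assembly
-/

set_option autoImplicit false

namespace Pool.Agent.W275.US

open MeasureTheory Set
open scoped ENNReal InnerProductSpace

variable {b d : ℕ}

theorem nontriv (hd : 1 ≤ d) : Nontrivial (E d) := by
  have : Nonempty (Fin d) := ⟨⟨0, hd⟩⟩
  infer_instance

theorem inner_inj (i : Fin b) (v : E d) (x : X b d) :
    ⟪(inj i v : X b d), x⟫_ℝ = ⟪v, blk i x⟫_ℝ := by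
  rw [PiLp.inner_apply, PiLp.inner_apply, Fintype.sum_prod_type]
  rw [Finset.sum_eq_single i]
  · refine Finset.sum_congr rfl fun k _ => ?_
    show ⟪(if (i, k).1 = i then v k else 0 : ℝ), _⟫_ℝ = _
    rw [if_pos rfl]
    rfl
  · intro j _ hj
    refine Finset.sum_eq_zero fun k _ => ?_
    show ⟪(if (j, k).1 = i then v k else 0 : ℝ), _⟫_ℝ = 0
    rw [if_neg hj]
    simp
  · intro h
    exact absurd (Finset.mem_univ i) h

theorem blk_inj (i : Fin b) (v : E d) : blk i (inj i v : X b d) = v := by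
  ext k
  show (if (i, k).1 = i then v k else 0 : ℝ) = v k
  rw [if_pos rfl]

theorem norm_inj (i : Fin b) (v : E d) : ‖(inj i v : X b d)‖ = ‖v‖ := by
  have h : ‖(inj i v : X b d)‖ ^ 2 = ‖v‖ ^ 2 := by
    rw [← real_inner_self_eq_norm_sq, inner_inj, blk_inj, real_inner_self_eq_norm_sq]
  exact (sq_eq_sq₀ (norm_nonneg _) (norm_nonneg _)).1 h

theorem norm_sq_blk (x : X b d) : ‖x‖ ^ 2 = ∑ i, ‖blk i x‖ ^ 2 := by
  rw [EuclideanSpace.real_norm_sq_eq, Fintype.sum_prod_type]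
  refine Finset.sum_congr rfl fun i _ => ?_
  rw [EuclideanSpace.real_norm_sq_eq]
  rfl

theorem norm_sq_zblk (z : Z b d) : ‖z‖ ^ 2 = ∑ i, ‖zblk i z‖ ^ 2 := by
  rw [EuclideanSpace.real_norm_sq_eq, Fintype.sum_prod_type]
  refine Finset.sum_congr rfl fun i _ => ?_
  rw [EuclideanSpace.real_norm_sq_eq]
  rfl

theorem comp_inj_sum (L : X b d →L[ℝ] ℝ) : ∑ i, ‖L.comp (inj i)‖ ^ 2 ≤ ‖L‖ ^ 2 := by
  set w := (InnerProductSpace.toDual ℝ (X b d)).symm L with hw
  have h1 : ‖w‖ = ‖L‖ := by rw [hw, LinearIsometryEquiv.norm_map]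
  have h2 : ∀ x, L x = ⟪w, x⟫_ℝ := fun x => by
    rw [hw, InnerProductSpace.toDual_symm_apply]
  have h3 : ∀ i, ‖L.comp (inj i)‖ ≤ ‖blk i w‖ := by
    intro i
    refine ContinuousLinearMap.opNorm_le_bound _ (norm_nonneg _) fun v => ?_
    rw [ContinuousLinearMap.comp_apply, h2, real_inner_comm, inner_inj, Real.norm_eq_abs]
    refine (abs_real_inner_le_norm _ _).trans ?_
    rw [mul_comm]
  rw [← h1, norm_sq_blk w]
  exact Finset.sum_le_sum fun i _ => pow_le_pow_left₀ (norm_nonneg _) (h3 i) 2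

/-- integrals over the measure with density `ρ` -/
theorem int_dens {F : Type*} [MeasureSpace F] (ρ : F → ℝ) (hm : Measurable ρ) (h0 : ∀ x, 0 ≤ ρ x)
    (g : F → ℝ) : ∫ x, g x ∂(volume.withDensity fun x => ENNReal.ofReal (ρ x)) = ∫ x, g x * ρ x := by
  rw [integral_withDensity_eq_integral_toReal_smul (hm.ennreal_ofReal)
    (Filter.Eventually.of_forall fun x => ENNReal.ofReal_lt_top)]
  refine integral_congr_ae (Filter.Eventually.of_forall fun x => ?_)
  simp only [ENNReal.toReal_ofReal (h0 x), smul_eq_mul]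
  ring

/-- the second moment matrix of a body has a largest eigenvalue -/
theorem exists_sigma (hd : 1 ≤ d) {p : Seminorm ℝ (E d)} (hp : Def p) :
    ∃ σ : ℝ, 0 < σ ∧ (∀ θ, ∫ u, ⟪θ, u⟫_ℝ ^ 2 ∂(unif p) ≤ σ * ‖θ‖ ^ 2) ∧
      (∃ v : E d, ‖v‖ = 1 ∧ ∫ u, ⟪v, u⟫_ℝ ^ 2 ∂(unif p) = σ) ∧
      ∫ u, ‖u‖ ^ 2 ∂(unif p) ≤ d * σ := by
  have hnt := nontriv hd
  have hprob := unif_prob hp
  have hK := ball1_compact hp
  have hint : ∀ g : E d → ℝ, Continuous g → Integrable g (unif p) := by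
    intro g hg
    unfold unif ProbabilityTheory.cond
    refine Integrable.smul_measure ?_ (ENNReal.inv_ne_top.2 (ball1_vol hp).1.ne')
    exact hg.continuousOn.integrableOn_compact hK
  have hq : Continuous fun θ : E d => ∫ u, ⟪θ, u⟫_ℝ ^ 2 ∂(unif p) := by
    have hF : Continuous (Function.uncurry fun (θ u : E d) => ⟪θ, u⟫_ℝ ^ 2) := by
      have : (Function.uncurry fun (θ u : E d) => ⟪θ, u⟫_ℝ ^ 2) =
          fun q : E d × E d => ⟪q.1, q.2⟫_ℝ ^ 2 := rfl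
      rw [this]
      fun_prop
    have h1 : (fun θ : E d => ∫ u, ⟪θ, u⟫_ℝ ^ 2 ∂(unif p)) =
        fun θ : E d => ((volume (ball1 p))⁻¹).toReal * ∫ u in ball1 p, ⟪θ, u⟫_ℝ ^ 2 := by
      funext θ
      unfold unif ProbabilityTheory.cond
      rw [integral_smul_measure, smul_eq_mul]
    rw [h1]
    exact continuous_const.mul (continuous_parametric_integral_of_continuous hF hK)
  obtain ⟨v, hv, hmax⟩ := (isCompact_sphere (0 : E d) 1).exists_isMaxOn
    (NormedSpace.sphere_nonempty.2 zero_le_one) hq.continuousOn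
  have hv1 : ‖v‖ = 1 := by simpa using hv
  obtain ⟨σ, hσ⟩ : ∃ σ : ℝ, σ = ∫ u, ⟪v, u⟫_ℝ ^ 2 ∂(unif p) := ⟨_, rfl⟩
  have hle : ∀ θ : E d, ∫ u, ⟪θ, u⟫_ℝ ^ 2 ∂(unif p) ≤ σ * ‖θ‖ ^ 2 := by
    intro θ
    rcases eq_or_ne θ 0 with rfl | hθ
    · simp
    have hn : 0 < ‖θ‖ := norm_pos_iff.2 hθ
    have h1 : ‖θ‖⁻¹ • θ ∈ Metric.sphere (0 : E d) 1 := by
      simp [norm_smul, hn.ne']
    have h2 : ∫ u, ⟪‖θ‖⁻¹ • θ, u⟫_ℝ ^ 2 ∂(unif p) ≤ σ := by
      rw [hσ]
      exact hmax h1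
    have h3 : ∀ u : E d, ⟪‖θ‖⁻¹ • θ, u⟫_ℝ ^ 2 = (‖θ‖⁻¹) ^ 2 * ⟪θ, u⟫_ℝ ^ 2 := fun u => by
      rw [real_inner_smul_left]
      ring
    simp_rw [h3] at h2
    rw [integral_const_mul, inv_pow, inv_mul_eq_div, div_le_iff₀ (by positivity)] at h2
    exact h2
  have hsum : ∫ u, ‖u‖ ^ 2 ∂(unif p) ≤ d * σ := by
    have h1 : ∀ u : E d, ‖u‖ ^ 2 = ∑ k : Fin d, ⟪EuclideanSpace.single k (1 : ℝ), u⟫_ℝ ^ 2 := by
      intro u
      rw [EuclideanSpace.real_norm_sq_eq]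
      refine Finset.sum_congr rfl fun k _ => ?_
      rw [EuclideanSpace.inner_single_left]
      simp
    simp_rw [h1]
    rw [integral_finsetSum _ fun k _ => hint _ (by fun_prop)]
    calc ∑ k : Fin d, ∫ u, ⟪EuclideanSpace.single k (1 : ℝ), u⟫_ℝ ^ 2 ∂(unif p)
        ≤ ∑ _k : Fin d, σ := by
          refine Finset.sum_le_sum fun k _ => ?_
          have := hle (EuclideanSpace.single k (1 : ℝ))
          simpa using this
      _ = d * σ := by simp
  have hpos : 0 < ∫ u, ‖u‖ ^ 2 ∂(unif p) := by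
    rw [integral_pos_iff_support_of_nonneg (fun u => by positivity) (hint _ (by fun_prop))]
    have h1 : ∀ᵐ u ∂(unif p), u ∈ Function.support fun u : E d => ‖u‖ ^ 2 := by
      filter_upwards [unif_ne (p := p) hd] with u hu
      simpa using hu
    rw [(prob_compl_eq_zero_iff₀ ?_).1 (by simpa [ae_iff, compl_def] using h1)]
    · exact one_pos
    · exact (measurableSet_support (by fun_prop)).nullMeasurableSet
  have hd0 : (0 : ℝ) < d := by exact_mod_cast hd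
  have hσ0 : 0 < σ := by
    have := hpos.trans_le hsum
    by_contra hcon
    push Not at hcon
    nlinarith
  exact ⟨σ, hσ0, hle, ⟨v, hv1, hσ.symm⟩, hsum⟩

end Pool.Agent.W275.US
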