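import Pool.Agent.W275.US.A1
import Pool.Agent.W275.US.Vol
import Pool.Agent.H888R2.KB.N2

/-!
# KLS for unconditional sums: the auxiliary rotation invariant density
-/

set_option autoImplicit false

namespace Pool.Agent.W275.US

open MeasureTheory Set
open scoped ENNReal InnerProductSpace
open Pool.Agent.H212R2.KLS (mu Bdd)
open Pool.Agent.H888R2.KB (DB fb ap lml)
open Pool.Agent.H888R2.KT (cp)

variable {b d : ℕ}

/-- the norms of the blocks -/
noncomputable def PX (p : Fin b → Seminorm ℝ (E d)) (x : X b d) (i : Fin b) : ℝ := p i (blk i x)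

/-- scaled Euclidean norms of the blocks -/
noncomputable def QZ (τ : Fin b → ℝ) (z : Z b d) (i : Fin b) : ℝ := τ i * ‖zblk i z‖

/-- the profile of a density -/
noncomputable def prof (e : Fin b → E d) (ρ : X b d → ℝ) (r : Fin b → ℝ) : ℝ :=
  ρ (cat fun i => r i • e i)

theorem blk_cont (i : Fin b) : Continuous (blk i : X b d → E d) :=
  (PiLp.continuous_toLp 2 _).comp (continuous_pi fun k => PiLp.continuous_apply 2 _ (i, k))

theorem zblk_cont (i : Fin b) : Continuous (zblk i : Z b d → W d) :=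
  (PiLp.continuous_toLp 2 _).comp (continuous_pi fun k => PiLp.continuous_apply 2 _ (i, k))

theorem cat_cont : Continuous (cat : (Fin b → E d) → X b d) :=
  (PiLp.continuous_toLp 2 _).comp (continuous_pi fun q =>
    (PiLp.continuous_apply 2 _ q.2).comp (continuous_apply q.1))

theorem PX_cont (p : Fin b → Seminorm ℝ (E d)) : Continuous (PX p) :=
  continuous_pi fun i => (p_cont (p i)).comp (blk_cont i)

theorem QZ_cont (τ : Fin b → ℝ) : Continuous (QZ τ : Z b d → Fin b → ℝ) :=
  continuous_pi fun i => continuous_const.mul (zblk_cont i).norm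

theorem prof_meas (e : Fin b → E d) {ρ : X b d → ℝ} (hρ : Measurable ρ) : Measurable (prof e ρ) := by
  have h : Continuous fun r : Fin b → ℝ => cat fun i => r i • e i :=
    cat_cont.comp (continuous_pi fun i => (continuous_apply i).smul continuous_const)
  exact hρ.comp h.measurable

theorem prof_PX {p : Fin b → Seminorm ℝ (E d)} {e : Fin b → E d} (he : ∀ i, p i (e i) = 1)
    {ρ : X b d → ℝ} (hρ : Rad p ρ) (x : X b d) : prof e ρ (PX p x) = ρ x := by
  refine hρ _ _ fun i => ?_
  rw [blk_cat, map_smul_eq_mul, he, mul_one, Real.norm_eq_abs]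
  exact abs_of_nonneg (apply_nonneg _ _)

theorem map_wd {α β : Type*} [MeasurableSpace α] [MeasurableSpace β] (μ : Measure α) {P : α → β}
    (hP : Measurable P) {g : β → ℝ≥0∞} (hg : Measurable g) :
    (μ.withDensity fun x => g (P x)).map P = (μ.map P).withDensity g := by
  ext A hA
  rw [Measure.map_apply hP hA, withDensity_apply _ (hP hA), withDensity_apply _ hA,
    setLIntegral_map hA hg hP]

/-- the auxiliary density -/
noncomputable def rZ (c : ℝ≥0∞) (e : Fin b → E d) (τ : Fin b → ℝ) (ρ : X b d → ℝ) (z : Z b d) : ℝ :=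
  c.toReal * prof e ρ (QZ τ z)

theorem map_eq {p : Fin b → Seminorm ℝ (E d)} {e : Fin b → E d} (he : ∀ i, p i (e i) = 1)
    {τ : Fin b → ℝ} {c : ℝ≥0∞} (hc : c ≠ ⊤)
    (hcm : (volume : Measure (X b d)).map (fun x i => p i (blk i x)) =
      c • (volume : Measure (Z b d)).map (fun z i => τ i * ‖zblk i z‖))
    {ρ : X b d → ℝ} (hm : Measurable ρ) (hρ : Rad p ρ) :
    (mu ρ).map (PX p) = (mu (rZ c e τ ρ)).map (QZ τ) := by
  have h1 : mu ρ = volume.withDensity fun x => (fun r => ENNReal.ofReal (prof e ρ r)) (PX p x) := by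
    unfold mu
    congr 1
    funext x
    rw [← prof_PX he hρ x]
  have h2 : mu (rZ c e τ ρ) =
      volume.withDensity fun z => (fun r => c * ENNReal.ofReal (prof e ρ r)) (QZ τ z) := by
    unfold mu
    congr 1
    funext z
    unfold rZ
    rw [ENNReal.ofReal_mul ENNReal.toReal_nonneg, ENNReal.ofReal_toReal hc]
  have hpm := prof_meas e hm
  rw [h1, h2, map_wd _ (PX_cont p).measurable hpm.ennreal_ofReal,
    map_wd _ (QZ_cont τ).measurable (hpm.ennreal_ofReal.const_mul c)]
  have h3 : (volume : Measure (X b d)).map (PX p) = c • (volume : Measure (Z b d)).map (QZ τ) := hcm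
  rw [h3, withDensity_smul_measure]
  have h4 : (fun r => c * ENNReal.ofReal (prof e ρ r)) =
      c • fun r => ENNReal.ofReal (prof e ρ r) := rfl
  rw [h4, withDensity_smul c hpm.ennreal_ofReal]

theorem zblk_ap (i j : Fin b) (g : Matrix (Fin d) (Fin d) ℝ)
    (hg : g ∈ Matrix.orthogonalGroup (Fin d) ℝ) (z : Z b d) :
    ‖zblk j (ap i (lml g) z)‖ = ‖zblk j z‖ := by
  have h := Pool.Agent.H888R2.KB.cp_ap i j (lml (n := 1) g) z
  have h1 : zblk j (ap i (lml g) z) = cp j (ap i (lml g) z) := rfl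
  rw [h1, h]
  split_ifs with hij
  · subst hij
    exact Pool.Agent.H888R2.KB.lml_norm g hg _
  · rfl

theorem zblk_comb (i : Fin b) (s t : ℝ) (z z' : Z b d) :
    zblk i (s • z + t • z') = s • zblk i z + t • zblk i z' := by
  ext k
  simp [zblk]

theorem cat_comb (s t : ℝ) (v v' : Fin b → E d) :
    s • cat v + t • cat v' = cat fun i => s • v i + t • v' i := by
  ext q
  simp [cat]

theorem rZ_DB {p : Fin b → Seminorm ℝ (E d)} {e : Fin b → E d} (he : ∀ i, p i (e i) = 1)
    {τ : Fin b → ℝ} (hτ : ∀ i, 0 < τ i) (c : ℝ≥0∞) {ρ : X b d → ℝ} (hm : Measurable ρ)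
    (h0 : ∀ x, 0 ≤ ρ x)
    (hlc : ∀ x y : X b d, ∀ t : ℝ, 0 < t → t < 1 → ρ x ^ (1 - t) * ρ y ^ t ≤ ρ ((1 - t) • x + t • y))
    (hmono : ∀ x y : X b d, (∀ j, p j (blk j x) ≤ p j (blk j y)) → ρ y ≤ ρ x) :
    DB (rZ c e τ ρ) where
  nonneg z := mul_nonneg ENNReal.toReal_nonneg (h0 _)
  meas := ((prof_meas e hm).comp (QZ_cont τ).measurable).const_mul _
  logc z z' t ht ht1 := by
    unfold rZ
    have hc0 : 0 ≤ c.toReal := ENNReal.toReal_nonneg
    have hz0 : 0 ≤ prof e ρ (QZ τ z) := h0 _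
    have hz0' : 0 ≤ prof e ρ (QZ τ z') := h0 _
    rw [Real.mul_rpow hc0 hz0, Real.mul_rpow hc0 hz0']
    have h1 : c.toReal ^ (1 - t) * c.toReal ^ t = c.toReal := by
      rcases hc0.eq_or_lt with h | h
      · rw [← h, Real.zero_rpow (by linarith), zero_mul]
      · rw [← Real.rpow_add h, sub_add_cancel, Real.rpow_one]
    have h2 := hlc (cat fun i => QZ τ z i • e i) (cat fun i => QZ τ z' i • e i) t ht ht1
    have h3 : ρ ((1 - t) • (cat fun i => QZ τ z i • e i) + t • cat fun i => QZ τ z' i • e i) ≤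
        prof e ρ (QZ τ ((1 - t) • z + t • z')) := by
      refine hmono _ _ fun j => ?_
      rw [cat_comb, blk_cat, blk_cat, map_smul_eq_mul, he, mul_one]
      have h4 : (1 - t) • QZ τ z j • e j + t • QZ τ z' j • e j =
          ((1 - t) * QZ τ z j + t * QZ τ z' j) • e j := by
        rw [smul_smul, smul_smul, ← add_smul]
      rw [h4, map_smul_eq_mul, he, mul_one]
      have h5 : 0 ≤ QZ τ ((1 - t) • z + t • z') j := mul_nonneg (hτ j).le (norm_nonneg _)
      have h6 : 0 ≤ QZ τ z j := mul_nonneg (hτ j).le (norm_nonneg _)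
      have h7 : 0 ≤ QZ τ z' j := mul_nonneg (hτ j).le (norm_nonneg _)
      have h8 : 0 ≤ (1 - t) * QZ τ z j + t * QZ τ z' j := by
        have : 0 ≤ 1 - t := by linarith
        positivity
      rw [Real.norm_eq_abs, Real.norm_eq_abs, abs_of_nonneg h5, abs_of_nonneg h8]
      unfold QZ
      rw [zblk_comb]
      have h9 : ‖(1 - t) • zblk j z + t • zblk j z'‖ ≤ (1 - t) * ‖zblk j z‖ + t * ‖zblk j z'‖ := by
        refine (norm_add_le _ _).trans ?_
        rw [norm_smul, norm_smul, Real.norm_of_nonneg ht.le,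
          Real.norm_of_nonneg (by linarith : 0 ≤ 1 - t)]
      have := mul_le_mul_of_nonneg_left h9 (hτ j).le
      linarith [this]
    calc c.toReal ^ (1 - t) * prof e ρ (QZ τ z) ^ (1 - t) *
        (c.toReal ^ t * prof e ρ (QZ τ z') ^ t)
        = (c.toReal ^ (1 - t) * c.toReal ^ t) *
            (prof e ρ (QZ τ z) ^ (1 - t) * prof e ρ (QZ τ z') ^ t) := by ring
      _ = c.toReal * (prof e ρ (QZ τ z) ^ (1 - t) * prof e ρ (QZ τ z') ^ t) := by rw [h1]
      _ ≤ c.toReal * prof e ρ (QZ τ ((1 - t) • z + t • z')) :=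
          mul_le_mul_of_nonneg_left (h2.trans h3) hc0
  inv i g hg z := by
    unfold rZ
    congr 2
    funext j
    unfold QZ
    rw [zblk_ap i j g hg z]

end Pool.Agent.W275.US
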