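import Pool.Agent.W275.US.A2

/-!
# KLS for unconditional sums: transfer to the auxiliary density
-/

set_option autoImplicit false

namespace Pool.Agent.W275.US

open MeasureTheory Set
open scoped ENNReal InnerProductSpace
open Pool.Agent.H212R2.KLS (mu Bdd)
open Pool.Agent.H888R2.KB (DB fb ap lml)
open Pool.Agent.H888R2.KT (cp)

variable {b d : ℕ}

/-- average of `f` over all directions as a function of the norms -/
noncomputable def Rf (p : Fin b → Seminorm ℝ (E d)) (f : X b d → ℝ) (r : Fin b → ℝ) : ℝ :=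
  ∫ u, f (cat fun i => r i • dir (p i) (u i)) ∂(uu p)

theorem Rf_avg (p : Fin b → Seminorm ℝ (E d)) (f : X b d → ℝ) (x : X b d) :
    Rf p f (PX p x) = avg p f x := rfl

theorem Rf_G (p : Fin b → Seminorm ℝ (E d)) (τ : Fin b → ℝ) (f : X b d → ℝ) (z : Z b d) :
    Rf p f (QZ τ z) = G p τ f 0 z := by
  unfold Rf G QZ
  congr 1
  funext u
  congr 2
  funext i
  rw [zero_pow two_ne_zero, add_zero, Real.sqrt_sq (norm_nonneg _)]

theorem dir_meas (p : Seminorm ℝ (E d)) : Measurable (dir p) := by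
  unfold dir
  exact ((p_cont p).measurable.inv).smul measurable_id

theorem Rf_meas {p : Fin b → Seminorm ℝ (E d)} (hp : ∀ i, Def (p i)) {f : X b d → ℝ}
    (hf : Continuous f) : Measurable (Rf p f) := by
  have hprob : ∀ i, IsProbabilityMeasure (unif (p i)) := fun i => unif_prob (hp i)
  have huu : IsProbabilityMeasure (uu p) := by
    unfold uu
    infer_instance
  have h1 : Measurable fun q : (Fin b → ℝ) × (Fin b → E d) =>
      f (cat fun i => q.1 i • dir (p i) (q.2 i)) := by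
    refine hf.measurable.comp (cat_cont.measurable.comp (measurable_pi_lambda _ fun i => ?_))
    refine Measurable.smul ((measurable_pi_apply i).comp measurable_fst) ?_
    exact (dir_meas (p i)).comp ((measurable_pi_apply i).comp measurable_snd)
  exact (h1.stronglyMeasurable.integral_prod_right (ν := uu p)).measurable

theorem integrable_of_mu {F : Type*} [MeasureSpace F] {ρ : F → ℝ} (hm : Measurable ρ)
    (h0 : ∀ x, 0 ≤ ρ x) (h : mu ρ univ ≠ ⊤) : Integrable ρ := by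
  refine ⟨hm.aestronglyMeasurable, ?_⟩
  rw [hasFiniteIntegral_iff_ofReal (Filter.Eventually.of_forall h0)]
  have : mu ρ univ = ∫⁻ x, ENNReal.ofReal (ρ x) := by
    rw [mu, withDensity_apply _ MeasurableSet.univ, setLIntegral_univ]
  rw [← this]
  exact lt_top_iff_ne_top.2 h

theorem rZ_nonneg (c : ℝ≥0∞) (e : Fin b → E d) (τ : Fin b → ℝ) {ρ : X b d → ℝ}
    (h0 : ∀ x, 0 ≤ ρ x) (z : Z b d) : 0 ≤ rZ c e τ ρ z :=
  mul_nonneg ENNReal.toReal_nonneg (h0 _)

theorem rZ_meas (c : ℝ≥0∞) (e : Fin b → E d) (τ : Fin b → ℝ) {ρ : X b d → ℝ}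
    (hm : Measurable ρ) : Measurable (rZ c e τ ρ : Z b d → ℝ) :=
  ((prof_meas e hm).comp (QZ_cont τ).measurable).const_mul _

theorem rZ_Bdd (hb : 1 ≤ b) {p : Fin b → Seminorm ℝ (E d)} {e : Fin b → E d}
    (he : ∀ i, p i (e i) = 1) {τ : Fin b → ℝ} (hτ : ∀ i, 0 < τ i) (c : ℝ≥0∞) {ρ : X b d → ℝ}
    (hbd : Bdd ρ) : Bdd (rZ c e τ ρ) := by
  obtain ⟨R, hR⟩ := hbd
  have hne : (Finset.univ : Finset (Fin b)).Nonempty := ⟨⟨0, hb⟩, Finset.mem_univ _⟩
  obtain ⟨i0, -, hmin⟩ := Finset.exists_min_image Finset.univ (fun i => τ i * ‖e i‖) hne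
  have he0 : ∀ i, 0 < ‖e i‖ := fun i => by
    rw [norm_pos_iff]
    intro h
    have := he i
    rw [h, map_zero] at this
    exact zero_ne_one this
  set δ := τ i0 * ‖e i0‖ with hδ
  have hδ0 : 0 < δ := mul_pos (hτ i0) (he0 i0)
  refine ⟨|R| / δ, fun z hz => ?_⟩
  unfold rZ prof
  rw [hR, mul_zero]
  have h1 : δ ^ 2 * ‖z‖ ^ 2 ≤ ‖(cat fun i => QZ τ z i • e i : X b d)‖ ^ 2 := by
    rw [norm_sq_blk, norm_sq_zblk, Finset.mul_sum]
    refine Finset.sum_le_sum fun i _ => ?_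
    rw [blk_cat, norm_smul, ← mul_pow]
    refine pow_le_pow_left₀ (by positivity) ?_ 2
    unfold QZ
    rw [Real.norm_eq_abs, abs_of_nonneg (mul_nonneg (hτ i).le (norm_nonneg _))]
    have := mul_le_mul_of_nonneg_right (hmin i (Finset.mem_univ i)) (norm_nonneg (zblk i z))
    linarith [this]
  have h2 : |R| < δ * ‖z‖ := by
    rw [div_lt_iff₀ hδ0] at hz
    linarith
  have h3 : |R| < ‖(cat fun i => QZ τ z i • e i : X b d)‖ := by
    refine lt_of_lt_of_le h2 ?_
    refine le_of_sq_le_sq ?_ (norm_nonneg _)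
    rw [mul_pow]
    exact h1
  exact (le_abs_self R).trans_lt h3

/-- integrals of functions of the norms -/
theorem int_map {p : Fin b → Seminorm ℝ (E d)} {e : Fin b → E d}
    {τ : Fin b → ℝ} {c : ℝ≥0∞} {ρ : X b d → ℝ}
    (hmap : (mu ρ).map (PX p) = (mu (rZ c e τ ρ)).map (QZ τ)) {h : (Fin b → ℝ) → ℝ}
    (hh : Measurable h) :
    ∫ x, h (PX p x) ∂(mu ρ) = ∫ z, h (QZ τ z) ∂(mu (rZ c e τ ρ)) := by
  rw [← integral_map (PX_cont p).measurable.aemeasurable hh.aestronglyMeasurable,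
    ← integral_map (QZ_cont τ).measurable.aemeasurable hh.aestronglyMeasurable, hmap]

theorem mass_map {p : Fin b → Seminorm ℝ (E d)} {e : Fin b → E d}
    {τ : Fin b → ℝ} {c : ℝ≥0∞} {ρ : X b d → ℝ}
    (hmap : (mu ρ).map (PX p) = (mu (rZ c e τ ρ)).map (QZ τ)) {A : Set (Fin b → ℝ)}
    (hA : MeasurableSet A) :
    mu ρ (PX p ⁻¹' A) = mu (rZ c e τ ρ) (QZ τ ⁻¹' A) := by
  rw [← Measure.map_apply (PX_cont p).measurable hA, ← Measure.map_apply (QZ_cont τ).measurable hA,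
    hmap]

end Pool.Agent.W275.US
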