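import Pool.Agent.W275.US.A3

/-!
# KLS for unconditional sums: the radial part
-/

set_option autoImplicit false

namespace Pool.Agent.W275.US

open MeasureTheory Set
open scoped ENNReal InnerProductSpace
open Pool.Agent.H212R2.KLS (mu Bdd OpLe mv V)
open Pool.Agent.H888R2.KB (DB fb ap lml)
open Pool.Agent.H888R2.KT (cp)

variable {b d : ℕ}

theorem int_mu {F : Type*} [MeasureSpace F] (ρ : F → ℝ) (hm : Measurable ρ) (h0 : ∀ x, 0 ≤ ρ x)
    (g : F → ℝ) : ∫ x, g x ∂(mu ρ) = ∫ x, g x * ρ x := int_dens ρ hm h0 g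

theorem opLe_norm {r : ℝ} {y : W d} (h : OpLe r y) : ‖y‖ ≤ r := by
  have h1 := h (EuclideanSpace.single 0 1)
  have h2 : ‖(EuclideanSpace.single 0 1 : V 1)‖ = 1 := by simp
  rw [h2, mul_one] at h1
  have h3 : ‖mv y (EuclideanSpace.single (0 : Fin 1) (1 : ℝ))‖ = ‖y‖ := by
    have h4 : ‖mv y (EuclideanSpace.single (0 : Fin 1) (1 : ℝ))‖ ^ 2 = ‖y‖ ^ 2 := by
      rw [EuclideanSpace.real_norm_sq_eq, EuclideanSpace.real_norm_sq_eq, Fintype.sum_prod_type]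
      refine Finset.sum_congr rfl fun k _ => ?_
      rw [Fin.sum_univ_one]
      congr 1
      show (Matrix.mulVec (fun a c => y (a, c)) _) k = _
      simp [Matrix.mulVec, dotProduct]
    exact (sq_eq_sq₀ (norm_nonneg _) (norm_nonneg _)).1 h4
  rwa [h3] at h1

theorem radial (hrad : S_rad) (hom : S_omega) (hcov : S_cov) (hcovZ : S_covZ) (hG : S_G) :
    ∃ C : ℝ, 0 < C ∧ ∀ {b d : ℕ}, 1 ≤ b → 3 ≤ d →
    ∀ p : Fin b → Seminorm ℝ (E d), (∀ i, Def (p i)) →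
    ∀ ρ : X b d → ℝ, (∀ x, 0 ≤ ρ x) → Measurable ρ →
    (∀ x y : X b d, ∀ t : ℝ, 0 < t → t < 1 → ρ x ^ (1 - t) * ρ y ^ t ≤ ρ ((1 - t) • x + t • y)) →
    Rad p ρ → (∀ x y : X b d, (∀ j, p j (blk j x) ≤ p j (blk j y)) → ρ y ≤ ρ x) →
    Bdd ρ → mu ρ univ = 1 →
    ∀ σ : Fin b → ℝ, (∀ i, 0 < σ i) →
    (∀ i, ∃ v : E d, ‖v‖ = 1 ∧ ∫ u, ⟪v, u⟫_ℝ ^ 2 ∂(unif (p i)) = σ i) →
    (∀ i, ∫ u, ‖u‖ ^ 2 ∂(unif (p i)) ≤ d * σ i) →
    ∀ s : ℝ, 0 < s → (∀ θ, ∫ x, ⟪θ, x⟫_ℝ ^ 2 ∂(mu ρ) ≤ s * ‖θ‖ ^ 2) →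
    (∀ t : ℝ, mu ρ {x | ¬ ∀ i, p i (blk i x) ≤ (Real.sqrt (σ i))⁻¹ * (20 * t * Real.sqrt s)} ≤
      b * ENNReal.ofReal (Real.exp (d * (4 - t / 2)))) ∧
    ∀ f : X b d → ℝ, ContDiff ℝ 1 f → (∀ x, ‖fderiv ℝ f x‖ ≤ 1) →
    ∃ c : ℝ, ∫ x, (avg p f x - c) ^ 2 ∂(mu ρ) ≤ C * fb b d ^ 2 * s := by
  obtain ⟨C₀, hC₀, hcore⟩ := Pool.Agent.H888R2.KB.core
  refine ⟨16 * C₀ + 2, by positivity, ?_⟩
  intro b d hb1 hd3 p hp ρ h0 hm hlc hρr hmono hbd h1 σ hσ hσv hσd s hs hmom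
  have hd1 : 1 ≤ d := by omega
  have hd0 : (0 : ℝ) < d := by exact_mod_cast hd1
  have hb0 : (0 : ℝ) < b := by exact_mod_cast hb1
  have hprob : IsProbabilityMeasure (mu ρ) := ⟨h1⟩
  have hu : ∀ i, IsProbabilityMeasure (unif (p i)) := fun i => unif_prob (hp i)
  -- parameters
  obtain ⟨τ, hτdef⟩ : ∃ τ : Fin b → ℝ, ∀ i, τ i = (Real.sqrt (σ i))⁻¹ := ⟨_, fun _ => rfl⟩
  have hτ : ∀ i, 0 < τ i := fun i => by rw [hτdef]; exact inv_pos.2 (Real.sqrt_pos.2 (hσ i))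
  have hτ2 : ∀ i, τ i ^ 2 = (σ i)⁻¹ := fun i => by
    rw [hτdef, inv_pow, Real.sq_sqrt (hσ i).le]
  have hex : ∀ i, ∃ e : E d, p i e = 1 := by
    intro i
    have := nontriv hd1
    obtain ⟨v, hv⟩ := exists_ne (0 : E d)
    exact ⟨dir (p i) v, p_dir (hp i) hv⟩
  choose e he using hex
  obtain ⟨c, hc0, hc, hcm⟩ := hrad b d hd1 p hp τ hτ
  have hmap := map_eq he hc hcm hm hρr
  obtain ⟨q, hq⟩ : ∃ q : Z b d → ℝ, q = rZ c e τ ρ := ⟨_, rfl⟩
  have hDB : DB q := by rw [hq]; exact rZ_DB he hτ c hm h0 hlc hmono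
  have hqb : Bdd q := by rw [hq]; exact rZ_Bdd hb1 he hτ c hbd
  have hq1 : mu q univ = 1 := by
    have := mass_map hmap (A := univ) MeasurableSet.univ
    rw [preimage_univ, preimage_univ, h1] at this
    rw [hq, ← this]
  have hqprob : IsProbabilityMeasure (mu q) := ⟨hq1⟩
  have hqi : Integrable q := integrable_of_mu hDB.meas hDB.nonneg (by rw [hq1]; exact ENNReal.one_ne_top)
  have hρi : Integrable ρ := integrable_of_mu hm h0 (by rw [h1]; exact ENNReal.one_ne_top)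
  -- second moments
  have hT : ∀ i, ∫ z, ‖zblk i z‖ ^ 2 * q z ≤ s := by
    intro i
    obtain ⟨v, hv1, hv2⟩ := hσv i
    have h2 := hcov b d hd1 p hp ρ hm h0 hρi hbd hρr i v
    rw [hv2, ← int_mu ρ hm h0 (fun x => p i (blk i x) ^ 2),
      ← int_mu ρ hm h0 (fun x => ⟪(inj i v : X b d), x⟫_ℝ ^ 2)] at h2
    have h3 := hmom (inj i v)
    rw [norm_inj, hv1, one_pow, mul_one] at h3
    have h4 := int_map hmap (h := fun r => σ i * r i ^ 2)
      (((measurable_pi_apply i).pow_const 2).const_mul _)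
    rw [← int_mu q hDB.meas hDB.nonneg (fun z => ‖zblk i z‖ ^ 2)]
    have h5 : ∫ z, ‖zblk i z‖ ^ 2 ∂(mu q) = ∫ z, σ i * (QZ τ z i) ^ 2 ∂(mu q) := by
      refine integral_congr_ae (Filter.Eventually.of_forall fun z => ?_)
      show ‖zblk i z‖ ^ 2 = σ i * (τ i * ‖zblk i z‖) ^ 2
      rw [mul_pow, hτ2, ← mul_assoc, mul_inv_cancel₀ (hσ i).ne', one_mul]
    rw [h5, hq, ← h4, integral_const_mul]
    exact h2.trans h3
  have hmomZ : ∀ θ : Z b d, ∫ z, ⟪θ, z⟫_ℝ ^ 2 ∂(mu q) ≤ s / d * ‖θ‖ ^ 2 := by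
    intro θ
    rw [int_mu q hDB.meas hDB.nonneg]
    refine hcovZ b d hd1 q hDB.meas hDB.nonneg hqi hqb ?_ s hT θ
    intro z z' hz
    rw [hq]
    unfold rZ
    congr 2
    funext i
    unfold QZ
    rw [hz i]
  have hsd : 0 < s / d := by positivity
  have hsd' : (d : ℝ) * (s / d) = s := by field_simp
  refine ⟨?_, ?_⟩
  · -- the tail
    intro t
    have h2 := Pool.Agent.H888R2.KB.op_tail (n := 1) (by omega) le_rfl hd1 hDB hqb hq1 (s / d) hsd hmomZ t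
    rw [hsd'] at h2
    refine le_trans ?_ h2
    have h3 : {x : X b d | ¬ ∀ i, p i (blk i x) ≤ (Real.sqrt (σ i))⁻¹ * (20 * t * Real.sqrt s)} =
        PX p ⁻¹' {r | ¬ ∀ i, r i ≤ τ i * (20 * t * Real.sqrt s)} := by
      ext x
      simp only [mem_ofPred_eq, mem_preimage, PX, hτdef]
    have h4 : MeasurableSet {r : Fin b → ℝ | ¬ ∀ i, r i ≤ τ i * (20 * t * Real.sqrt s)} := by
      have : IsClosed {r : Fin b → ℝ | ∀ i, r i ≤ τ i * (20 * t * Real.sqrt s)} := by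
        have h : {r : Fin b → ℝ | ∀ i, r i ≤ τ i * (20 * t * Real.sqrt s)} =
            ⋂ i, {r : Fin b → ℝ | r i ≤ τ i * (20 * t * Real.sqrt s)} := by
          ext r
          simp
        rw [h]
        exact isClosed_iInter fun i => isClosed_le (continuous_apply i) continuous_const
      exact this.measurableSet.compl
    rw [h3, mass_map hmap h4, ← hq]
    refine measure_mono fun z hz => ?_
    intro hcon
    refine hz fun i => ?_
    exact mul_le_mul_of_nonneg_left (opLe_norm (hcon i)) (hτ i).le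
  · intro f hf hf1
    obtain ⟨D, hD⟩ : ∃ D : ℝ, D = 8 * d := ⟨_, rfl⟩
    have hD0 : 0 < D := by rw [hD]; positivity
    have hDi : ∀ i, τ i ^ 2 * ∫ u, ‖dir (p i) u‖ ^ 2 ∂(unif (p i)) ≤ D := by
      intro i
      have h2 := hom d hd1 (p i) (hp i)
      have h3 := hσd i
      rw [hτ2, inv_mul_eq_div, div_le_iff₀ (hσ i), hD]
      linarith
    obtain ⟨η, hη⟩ : ∃ η : ℝ, η = Real.sqrt (s / (b * D)) := ⟨_, rfl⟩
    have hη0 : 0 < η := by rw [hη]; exact Real.sqrt_pos.2 (by positivity)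
    have hη2 : η ^ 2 * (b * D) = s := by
      rw [hη, Real.sq_sqrt (by positivity)]
      field_simp
    obtain ⟨g1, g2, g3⟩ := hG b d hd1 p hp τ hτ D hD0 hDi f hf hf1 η hη0
    obtain ⟨g, hg⟩ : ∃ g : Z b d → ℝ, g = G p τ f η := ⟨_, rfl⟩
    rw [← hg] at g1 g2 g3
    have hsD : 0 < Real.sqrt D := Real.sqrt_pos.2 hD0
    have hsD2 : Real.sqrt D ^ 2 = D := Real.sq_sqrt hD0.le
    have hball := Pool.Agent.H888R2.KB.T3x.ball_null hDB.meas hqb
    have hint : ∀ h : Z b d → ℝ, Continuous h → Integrable h (mu q) :=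
      fun h hh => Pool.Agent.H888R2.KB.F1x.intg (mu q) hball h hh
    -- variance of `g`
    have hvar : ∫ z, g z ^ 2 ∂(mu q) - (∫ z, g z ∂(mu q)) ^ 2 ≤ 8 * C₀ * fb b d ^ 2 * s := by
      have h2 := hcore (n := 1) hb1 hd3 le_rfl hd1 q hDB hqb hq1 (s / d) hsd hmomZ
        (fun z => (Real.sqrt D)⁻¹ * g z) (contDiff_const.mul g1) (fun z => by
          have h5 : fderiv ℝ (fun z => (Real.sqrt D)⁻¹ * g z) z = (Real.sqrt D)⁻¹ • fderiv ℝ g z := by
            have := (g1.differentiable one_ne_zero z).hasFDerivAt.const_mul ((Real.sqrt D)⁻¹)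
            exact this.fderiv
          rw [h5, norm_smul, Real.norm_of_nonneg (inv_pos.2 hsD).le, inv_mul_le_iff₀ hsD, mul_one]
          exact g2 z)
      have h3 : ∫ z, ((Real.sqrt D)⁻¹ * g z) ^ 2 ∂(mu q) = D⁻¹ * ∫ z, g z ^ 2 ∂(mu q) := by
        rw [← integral_const_mul]
        refine integral_congr_ae (Filter.Eventually.of_forall fun z => ?_)
        show ((Real.sqrt D)⁻¹ * g z) ^ 2 = D⁻¹ * g z ^ 2
        rw [mul_pow, inv_pow, hsD2]
      have h4 : (∫ z, (Real.sqrt D)⁻¹ * g z ∂(mu q)) ^ 2 = D⁻¹ * (∫ z, g z ∂(mu q)) ^ 2 := by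
        rw [integral_const_mul, mul_pow, inv_pow, hsD2]
      rw [h3, h4, ← mul_sub, inv_mul_le_iff₀ hD0] at h2
      refine h2.trans (le_of_eq ?_)
      rw [hD]
      field_simp
    obtain ⟨m, hmdef⟩ : ∃ m : ℝ, m = ∫ z, g z ∂(mu q) := ⟨_, rfl⟩
    rw [← hmdef] at hvar
    have hgc : Continuous g := g1.continuous
    have hi1 := hint g hgc
    have hi2 := hint (fun z => g z ^ 2) (hgc.pow 2)
    have hexp : ∫ z, (g z - m) ^ 2 ∂(mu q) = ∫ z, g z ^ 2 ∂(mu q) - m ^ 2 := by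
      have h2 : ∀ z, (g z - m) ^ 2 = (g z ^ 2 - 2 * m * g z) + m ^ 2 := fun z => by ring
      simp_rw [h2]
      have h3 : Integrable (fun z => 2 * m * g z) (mu q) := hi1.const_mul _
      have h4 : Integrable (fun z => g z ^ 2 - 2 * m * g z) (mu q) := hi2.sub h3
      rw [integral_add h4 (integrable_const _), integral_sub hi2 h3, integral_const_mul, ← hmdef]
      simp
      ring
    refine ⟨m, ?_⟩
    have hRm := Rf_meas hp (f := f) hf.continuous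
    have h2 : ∫ x, (avg p f x - m) ^ 2 ∂(mu ρ) = ∫ z, (G p τ f 0 z - m) ^ 2 ∂(mu q) := by
      have h3 := int_map hmap (h := fun r => (Rf p f r - m) ^ 2) ((hRm.sub_const m).pow_const 2)
      rw [← hq] at h3
      have h4 : ∀ z, (G p τ f 0 z - m) ^ 2 = (Rf p f (QZ τ z) - m) ^ 2 := fun z => by
        rw [Rf_G]
      simp_rw [h4]
      exact h3
    rw [h2]
    have h5 : ∀ z, (G p τ f 0 z - m) ^ 2 ≤ 2 * (g z - m) ^ 2 + 2 * s := by
      intro z
      have h6 := g3 z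
      have h7 : (g z - G p τ f 0 z) ^ 2 ≤ s := by
        rw [← sq_abs]
        calc |g z - G p τ f 0 z| ^ 2 ≤ (η * Real.sqrt (b * D)) ^ 2 :=
              pow_le_pow_left₀ (abs_nonneg _) h6 2
          _ = s := by rw [mul_pow, Real.sq_sqrt (by positivity), hη2]
      nlinarith [sq_nonneg ((g z - m) + (g z - G p τ f 0 z))]
    have h6 : Integrable (fun z => 2 * (g z - m) ^ 2 + 2 * s) (mu q) :=
      hint _ (by fun_prop)
    calc ∫ z, (G p τ f 0 z - m) ^ 2 ∂(mu q) ≤ ∫ z, (2 * (g z - m) ^ 2 + 2 * s) ∂(mu q) := by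
          refine integral_mono_of_nonneg (Filter.Eventually.of_forall fun z => sq_nonneg _) h6
            (Filter.Eventually.of_forall h5)
      _ = 2 * ∫ z, (g z - m) ^ 2 ∂(mu q) + 2 * s := by
          rw [integral_add (hint _ (by fun_prop)) (integrable_const _), integral_const_mul]
          simp
      _ ≤ 2 * (8 * C₀ * fb b d ^ 2 * s) + 2 * s := by
          rw [hexp]
          linarith
      _ ≤ (16 * C₀ + 2) * fb b d ^ 2 * s := by
          have hfb1 : 1 ≤ fb b d := by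
            unfold fb
            have : 0 ≤ Real.log b := Real.log_nonneg (by exact_mod_cast hb1)
            have : 0 ≤ Real.log b / d := by positivity
            linarith
          have hfb2 : 1 ≤ fb b d ^ 2 := one_le_pow₀ hfb1
          have : s ≤ fb b d ^ 2 * s := le_mul_of_one_le_left hs.le hfb2
          nlinarith

end Pool.Agent.W275.US
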