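import Pool.Agent.W275.US.A4
import Pool.Agent.W505.USDec

/-!
# KLS for unconditional sums: the core estimate, bounded support
-/

set_option autoImplicit false

namespace Pool.Agent.W275.US

open MeasureTheory Set
open scoped ENNReal InnerProductSpace
open Pool.Agent.H212R2.KLS (mu Bdd)
open Pool.Agent.H888R2.KT (LC)
open Pool.Agent.H888R2.KB (fb)

variable {b d : ℕ}

/-- the unit ball of `p` satisfies the KLS inequality with constant `κ`: its Poincare constant is at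
most `κ` times the largest variance of a linear functional of norm one -/
def KLSBody (κ : ℝ) (p : Seminorm ℝ (E d)) : Prop :=
  ∀ s : ℝ, (∀ θ, ∫ u, ⟪θ, u⟫_ℝ ^ 2 ∂(unif p) ≤ s * ‖θ‖ ^ 2) → Poin (unif p) (κ * s)

theorem dir_bdd {p : Seminorm ℝ (E d)} (hp : Def p) : ∃ C : ℝ, 0 < C ∧ ∀ u, ‖dir p u‖ ≤ C := by
  obtain ⟨C, hC0, hC⟩ := norm_le hp
  refine ⟨C, hC0, fun u => ?_⟩
  rcases eq_or_ne u 0 with rfl | hu
  · unfold dir
    simp [hC0.le]
  · have := hC (dir p u)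
    rwa [p_dir hp hu, mul_one] at this

theorem avg_bdd {p : Fin b → Seminorm ℝ (E d)} (hp : ∀ i, Def (p i)) {f : X b d → ℝ}
    (hf : Continuous f) (R : ℝ) : ∃ C : ℝ, ∀ x : X b d, ‖x‖ ≤ R → |avg p f x| ≤ C := by
  have hprob : ∀ i, IsProbabilityMeasure (unif (p i)) := fun i => unif_prob (hp i)
  have huu : IsProbabilityMeasure (uu p) := by
    unfold uu
    infer_instance
  have h1 : ∀ i, ∃ C : ℝ, 0 < C ∧ ∀ u, ‖dir (p i) u‖ ≤ C := fun i => dir_bdd (hp i)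
  have h2 : ∀ i, ∃ C : ℝ, 0 < C ∧ ∀ x, p i x ≤ C * ‖x‖ := fun i => p_le (p i)
  choose C1 hC1 hC1' using h1
  choose C2 hC2 hC2' using h2
  have hblk : ∀ (i : Fin b) (x : X b d), ‖blk i x‖ ≤ ‖x‖ := by
    intro i x
    refine le_of_sq_le_sq ?_ (norm_nonneg _)
    rw [norm_sq_blk x]
    exact Finset.single_le_sum (f := fun i => ‖blk i x‖ ^ 2) (fun j _ => sq_nonneg _)
      (Finset.mem_univ i)
  obtain ⟨S, hS⟩ : ∃ S : ℝ, S = Real.sqrt (∑ i, (C2 i * R * C1 i) ^ 2) := ⟨_, rfl⟩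
  obtain ⟨K, hK⟩ := (isCompact_closedBall (0 : X b d) S).exists_bound_of_continuousOn
    hf.continuousOn
  refine ⟨K, fun x hx => ?_⟩
  have hR : 0 ≤ R := (norm_nonneg x).trans hx
  have h3 : ∀ u : Fin b → E d, ‖f (turn p u x)‖ ≤ K := by
    intro u
    refine hK _ ?_
    rw [mem_closedBall_zero_iff, hS]
    refine Real.le_sqrt_of_sq_le ?_
    rw [norm_sq_blk]
    refine Finset.sum_le_sum fun i _ => pow_le_pow_left₀ (norm_nonneg _) ?_ 2
    unfold turn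
    rw [blk_cat, norm_smul, Real.norm_of_nonneg (apply_nonneg _ _)]
    refine mul_le_mul ?_ (hC1' i _) (norm_nonneg _) (by positivity [hC2 i])
    exact (hC2' i _).trans (mul_le_mul_of_nonneg_left ((hblk i x).trans hx) (hC2 i).le)
  unfold avg
  rw [← Real.norm_eq_abs]
  have := norm_integral_le_of_norm_le_const (μ := uu p) (Filter.Eventually.of_forall h3)
  simpa using this

theorem avg_int {p : Fin b → Seminorm ℝ (E d)} (hp : ∀ i, Def (p i)) {f : X b d → ℝ}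
    (hf : Continuous f) {ρ : X b d → ℝ} (hbd : Bdd ρ) [IsFiniteMeasure (mu ρ)] (c : ℝ) :
    Integrable (fun x => (avg p f x - c) ^ 2) (mu ρ) := by
  obtain ⟨R, hR⟩ := hbd
  obtain ⟨C, hC⟩ := avg_bdd hp hf R
  have hm : Measurable fun x : X b d => (avg p f x - c) ^ 2 := by
    have : Measurable fun x : X b d => avg p f x :=
      (Rf_meas hp hf).comp (PX_cont p).measurable
    exact (this.sub_const c).pow_const 2
  refine Integrable.of_bound hm.aestronglyMeasurable ((C + |c|) ^ 2) ?_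
  filter_upwards [Pool.Agent.H888R2.KB.T4x.ae_bdd ρ R hR] with x hx
  rw [Real.norm_of_nonneg (sq_nonneg _), ← sq_abs]
  refine pow_le_pow_left₀ (abs_nonneg _) ?_ 2
  have h1 := abs_sub (avg p f x) c
  have h2 := hC x hx
  linarith

theorem core (hrad : S_rad) (hom : S_omega) (hcov : S_cov) (hcovZ : S_covZ) (hG : S_G)
    (hang : S_angAll) (hdec : Pool.Agent.W505.USDec.S_dec2) :
    ∃ C : ℝ, 0 < C ∧ ∀ {b d : ℕ}, 1 ≤ b → 3 ≤ d →
    ∀ κ : ℝ, 1 ≤ κ → ∀ p : Fin b → Seminorm ℝ (E d), (∀ i, Def (p i)) → (∀ i, KLSBody κ (p i)) →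
    ∀ ρ : X b d → ℝ, (∀ x, 0 ≤ ρ x) → Measurable ρ →
    (∀ x y : X b d, ∀ t : ℝ, 0 < t → t < 1 → ρ x ^ (1 - t) * ρ y ^ t ≤ ρ ((1 - t) • x + t • y)) →
    Rad p ρ → (∀ x y : X b d, (∀ j, p j (blk j x) ≤ p j (blk j y)) → ρ y ≤ ρ x) →
    Bdd ρ → mu ρ univ = 1 →
    ∀ s : ℝ, 0 < s → (∀ θ, ∫ x, ⟪θ, x⟫_ℝ ^ 2 ∂(mu ρ) ≤ s * ‖θ‖ ^ 2) →
    ∀ f : X b d → ℝ, ContDiff ℝ 1 f → (∀ x, ‖fderiv ℝ f x‖ ≤ 1) →
    ∫ x, f x ^ 2 ∂(mu ρ) - (∫ x, f x ∂(mu ρ)) ^ 2 ≤ C * κ * fb b d ^ 2 * s := by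
  obtain ⟨C₄, hC₄, hfourth⟩ := Pool.Agent.H888R2.KB.fourth
  obtain ⟨C₁, hC₁, hradial⟩ := radial hrad hom hcov hcovZ hG
  refine ⟨9 * (400 * 256 + C₁) + 8 + 2 * Real.sqrt C₄, by positivity, ?_⟩
  intro b d hb1 hd3 κ hκ p hp hkls ρ h0 hm hlc hρr hmono hbd h1 s hs hmom f hf hf1
  have hd1 : 1 ≤ d := by omega
  have hprob : IsProbabilityMeasure (mu ρ) := ⟨h1⟩
  have hd3' : (3:ℝ) ≤ d := by exact_mod_cast hd3
  have hd0 : (0:ℝ) < d := by linarith
  have hbb : (1:ℝ) ≤ b := by exact_mod_cast hb1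
  have hb0 : (0:ℝ) < b := by linarith
  have hκ0 : 0 ≤ κ := by linarith
  have hlog : 0 ≤ Real.log b := Real.log_nonneg hbb
  have hball := Pool.Agent.H888R2.KB.T3x.ball_null hm hbd
  have hsig : ∀ i, ∃ σ : ℝ, 0 < σ ∧ (∀ θ, ∫ u, ⟪θ, u⟫_ℝ ^ 2 ∂(unif (p i)) ≤ σ * ‖θ‖ ^ 2) ∧
      (∃ v : E d, ‖v‖ = 1 ∧ ∫ u, ⟪v, u⟫_ℝ ^ 2 ∂(unif (p i)) = σ) ∧
      ∫ u, ‖u‖ ^ 2 ∂(unif (p i)) ≤ d * σ := fun i => exists_sigma hd1 (hp i)
  choose σ hσ0 hσle hσv hσd using hsig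
  obtain ⟨htail, hR⟩ := hradial hb1 hd3 p hp ρ h0 hm hlc hρr hmono hbd h1 σ hσ0 hσv hσd s hs hmom
  obtain ⟨c, hc⟩ := hR f hf hf1
  -- parameters
  obtain ⟨t, ht⟩ : ∃ t : ℝ, t = 16 + 6 * (Real.log b / d) := ⟨_, rfl⟩
  have hfb1 : 1 ≤ fb b d := by
    unfold fb
    have : 0 ≤ Real.log b / d := by positivity
    linarith
  have ht0 : 0 < t := by rw [ht]; positivity
  have htfb : t ≤ 16 * fb b d := by
    rw [ht]
    unfold fb
    have : 0 ≤ Real.log b / d := by positivity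
    linarith
  obtain ⟨r, hr⟩ : ∃ r : ℝ, r = 20 * t * Real.sqrt s := ⟨_, rfl⟩
  have hr0 : 0 < r := by
    have := Real.sqrt_pos.2 hs
    rw [hr]
    positivity
  have hr2 : r ^ 2 = 400 * t ^ 2 * s := by
    rw [hr, mul_pow, Real.sq_sqrt hs.le]
    ring
  obtain ⟨a, ha⟩ : ∃ a : Fin b → ℝ, ∀ i, a i = (Real.sqrt (σ i))⁻¹ * r := ⟨_, fun _ => rfl⟩
  have ha0 : ∀ i, 0 < a i := fun i => by
    rw [ha]
    exact mul_pos (inv_pos.2 (Real.sqrt_pos.2 (hσ0 i))) hr0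
  have ha2 : ∀ i, κ * σ i * a i ^ 2 = κ * r ^ 2 := fun i => by
    rw [ha, mul_pow, inv_pow, Real.sq_sqrt (hσ0 i).le]
    have := (hσ0 i).ne'
    field_simp
  obtain ⟨A, hA⟩ : ∃ A : Set (X b d), A = {x | ∀ i, p i (blk i x) ≤ a i} := ⟨_, rfl⟩
  have hAm : MeasurableSet A := by
    have h2 : A = ⋂ i, {x : X b d | p i (blk i x) ≤ a i} := by
      rw [hA]
      ext x
      simp
    rw [h2]
    exact (isClosed_iInter fun i => isClosed_le ((p_cont (p i)).comp (blk_cont i))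
      continuous_const).measurableSet
  obtain ⟨g, hg⟩ : ∃ g : X b d → ℝ, g = A.indicator ρ := ⟨_, rfl⟩
  have hg0 : ∀ x, 0 ≤ g x := fun x => by rw [hg]; exact Set.indicator_nonneg (fun x _ => h0 x) x
  have hgm : Measurable g := by rw [hg]; exact hm.indicator hAm
  have hgle : ∀ x, g x ≤ ρ x := fun x => by
    rw [hg]; exact Set.indicator_le_self' (fun _ _ => h0 _) x
  have hgb : Bdd g := by
    obtain ⟨R, hR⟩ := hbd
    exact ⟨R, fun x hx => le_antisymm ((hgle x).trans (hR x hx).le) (hg0 x)⟩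
  have hρi : Integrable ρ := integrable_of_mu hm h0 (by rw [h1]; exact ENNReal.one_ne_top)
  have hgi : Integrable g := by
    rw [hg]
    exact hρi.indicator hAm
  have hgr : Rad p g := by
    intro x y hxy
    have h2 := hρr x y hxy
    rw [hg]
    by_cases hx : x ∈ A
    · have hy : y ∈ A := by
        rw [hA] at hx ⊢
        intro i
        rw [← hxy i]
        exact hx i
      rw [indicator_of_mem hx, indicator_of_mem hy, h2]
    · have hy : y ∉ A := by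
        rw [hA] at hx ⊢
        intro hy
        refine hx fun i => ?_
        rw [hxy i]
        exact hy i
      rw [indicator_of_notMem hx, indicator_of_notMem hy]
  have hgmono : ∀ x y : X b d, (∀ j, p j (blk j x) ≤ p j (blk j y)) → g y ≤ g x := by
    intro x y hxy
    rw [hg]
    by_cases hy : y ∈ A
    · have hx : x ∈ A := by
        rw [hA] at hy ⊢
        exact fun i => (hxy i).trans (hy i)
      rw [indicator_of_mem hx, indicator_of_mem hy]
      exact hmono x y hxy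
    · rw [indicator_of_notMem hy]
      exact Set.indicator_nonneg (fun x _ => h0 x) x
  have hres : mu g = (mu ρ).restrict A := by
    rw [hg]
    exact Pool.Agent.H888R2.KB.F1x.mu_indicator ρ A hAm
  have hfing : IsFiniteMeasure (mu g) := by
    rw [hres]
    infer_instance
  have hballg := Pool.Agent.H888R2.KB.T3x.ball_null hgm hgb
  -- the angular part
  have hangular : ∫ x, (f x - avg p f x) ^ 2 * g x ≤ κ * r ^ 2 := by
    have h2 := hang b d hd1 p hp (fun i => κ * σ i) a (fun i => mul_nonneg hκ0 (hσ0 i).le) ha0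
      (fun i => hkls i (σ i) (hσle i)) g hgm hg0 hgi hgb hgmono (fun i x hx => by
        rw [hg]
        refine indicator_of_notMem ?_ _
        rw [hA]
        exact fun hcon => absurd (hcon i) (not_le.2 hx)) f hf
    refine h2.trans ?_
    have hfd : Continuous (fderiv ℝ f) := hf.continuous_fderiv one_ne_zero
    have hci : ∀ i : Fin b, Continuous fun x => ‖(fderiv ℝ f x).comp (inj i : E d →L[ℝ] X b d)‖ ^ 2 :=
      fun i => ((hfd.clm_comp continuous_const).norm).pow 2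
    have h3 : ∀ i : Fin b, κ * σ i * a i ^ 2 * ∫ x, ‖(fderiv ℝ f x).comp (inj i)‖ ^ 2 * g x =
        κ * r ^ 2 * ∫ x, ‖(fderiv ℝ f x).comp (inj i)‖ ^ 2 ∂(mu g) := by
      intro i
      rw [ha2, int_mu g hgm hg0]
    rw [Finset.sum_congr rfl fun i _ => h3 i, ← Finset.mul_sum]
    refine mul_le_of_le_one_right (by positivity) ?_
    rw [← integral_finsetSum _ fun i _ =>
      Pool.Agent.H888R2.KB.F1x.intg (mu g) hballg _ (hci i)]
    calc ∫ x, ∑ i, ‖(fderiv ℝ f x).comp (inj i)‖ ^ 2 ∂(mu g) ≤ ∫ x, (1 : ℝ) ∂(mu g) := by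
          refine integral_mono (Pool.Agent.H888R2.KB.F1x.intg (mu g) hballg _
            (continuous_finset_sum _ fun i _ => hci i)) (integrable_const _) fun x => ?_
          exact (comp_inj_sum _).trans (pow_le_one₀ (norm_nonneg _) (hf1 x))
      _ = (mu g).real univ := by simp
      _ ≤ 1 := by
          rw [hres]
          rw [Measure.real, Measure.restrict_apply_univ]
          have : mu ρ A ≤ 1 := prob_le_one
          exact ENNReal.toReal_le_of_le_ofReal zero_le_one (by simpa using this)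
  -- the local inequality
  obtain ⟨D, hDd⟩ : ∃ D : ℝ, D = κ * r ^ 2 + C₁ * fb b d ^ 2 * s := ⟨_, rfl⟩
  have hD0 : 0 ≤ D := by rw [hDd]; positivity
  have hloc : ∫ x in A, (f x - c) ^ 2 ∂(mu ρ) ≤ D := by
    have h2 := hdec b d hd1 p hp g hgm hg0 hgi hgb hgr f hf.continuous c
    rw [← hres, int_mu g hgm hg0, h2, hDd]
    refine add_le_add hangular ?_
    rw [← int_mu g hgm hg0 (fun x => (avg p f x - c) ^ 2), hres]
    refine le_trans ?_ hc
    exact setIntegral_le_integral (avg_int hp hf.continuous hbd c)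
      (ae_of_all _ fun x => sq_nonneg _)
  -- the tail
  obtain ⟨ε, hε⟩ : ∃ ε : ℝ, ε = Real.exp (-(2 * d)) / b := ⟨_, rfl⟩
  have hε0 : 0 ≤ ε := by rw [hε]; positivity
  have hexp : Real.exp (-(2 * (d:ℝ))) ≤ 1 / 2 := by
    rw [Real.exp_neg, inv_le_comm₀ (Real.exp_pos _) (by norm_num)]
    have := Real.add_one_le_exp (2 * (d:ℝ))
    linarith
  have hε2 : ε ≤ 1 / 2 := by
    rw [hε, div_le_iff₀ hb0]
    nlinarith
  have hAε : mu ρ Aᶜ ≤ ENNReal.ofReal (ε ^ 2) := by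
    have h2 := htail t
    rw [← hr] at h2
    have h3 : Aᶜ = {x | ¬ ∀ i, p i (blk i x) ≤ (Real.sqrt (σ i))⁻¹ * r} := by
      rw [hA]
      simp_rw [ha]
      rfl
    rw [h3]
    refine h2.trans (le_of_eq ?_)
    have h4 : (b : ℝ≥0∞) = ENNReal.ofReal (b : ℝ) := (ENNReal.ofReal_natCast b).symm
    rw [h4, ← ENNReal.ofReal_mul hb0.le]
    congr 1
    have h5 : (d:ℝ) * (4 - t / 2) =
        -(2 * d) + -(2 * d) + (-Real.log b + (-Real.log b + -Real.log b)) := by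
      rw [ht]
      field_simp
      ring
    rw [h5, Real.exp_add, Real.exp_add, Real.exp_add, Real.exp_add, Real.exp_neg (Real.log b),
      Real.exp_log hb0, hε]
    field_simp
  -- moments
  obtain ⟨M, hM⟩ : ∃ M : ℝ, M = s * (b * d) := ⟨_, rfl⟩
  have hM0 : 0 < M := by rw [hM]; positivity
  have h2M : ∫ x, ‖x‖ ^ 2 ∂(mu ρ) ≤ M := by
    refine (Pool.Agent.H888R2.KB.T4x.gen s hbd h1 hmom).trans (le_of_eq ?_)
    rw [hM]
    simp
  have hLC : LC ρ := ⟨h0, hm, hlc, hbd, by rw [h1]; exact ENNReal.one_ne_top, by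
    intro h0
    rw [h0] at h1
    simp at h1⟩
  have h4Q : ∫ x, ‖x‖ ^ 4 ∂(mu ρ) ≤ (Real.sqrt C₄ * M) ^ 2 := by
    have h2 := hfourth ρ hLC h1 (Real.sqrt M) (Real.sqrt_pos.2 hM0) (by
      rw [Real.sq_sqrt hM0.le]
      exact h2M)
    refine h2.trans (le_of_eq ?_)
    have h3 : Real.sqrt M ^ 4 = M ^ 2 := by
      have : Real.sqrt M ^ 4 = (Real.sqrt M ^ 2) ^ 2 := by ring
      rw [this, Real.sq_sqrt hM0.le]
    rw [h3, mul_pow, Real.sq_sqrt hC₄.le]
  -- gluing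
  have hglue := Pool.Agent.H888R2.KB.glue0 (mu ρ) hball A hAm f hf hf1 c D M (Real.sqrt C₄ * M) ε
    hD0 hM0.le (by positivity) hε0 hε2 hAε h2M h4Q hloc
  have hm2 : (d:ℝ) * Real.exp (-(2 * d)) ≤ 1 := by
    rw [Real.exp_neg, ← div_eq_mul_inv, div_le_one (Real.exp_pos _)]
    have := Real.add_one_le_exp (2 * (d:ℝ))
    linarith
  have hMε : M * ε ≤ s := by
    have : M * ε = s * ((d:ℝ) * Real.exp (-(2 * d))) := by
      rw [hM, hε]
      field_simp
    rw [this]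
    exact mul_le_of_le_one_right hs.le hm2
  have hMε2 : M * ε ^ 2 ≤ s := by
    have : M * ε ^ 2 = (M * ε) * ε := by ring
    rw [this]
    have h3 : (M * ε) * ε ≤ (M * ε) * 1 := mul_le_mul_of_nonneg_left (by linarith) (by positivity)
    linarith
  have ht2 : t ^ 2 ≤ 256 * fb b d ^ 2 := by
    have := pow_le_pow_left₀ ht0.le htfb 2
    linarith [this, (by ring : (16 * fb b d) ^ 2 = 256 * fb b d ^ 2)]
  have hfb2 : 1 ≤ fb b d ^ 2 := one_le_pow₀ hfb1
  obtain ⟨T, hT⟩ : ∃ T : ℝ, T = κ * fb b d ^ 2 * s := ⟨_, rfl⟩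
  have hsT1 : s ≤ fb b d ^ 2 * s := le_mul_of_one_le_left hs.le hfb2
  have hsT2 : fb b d ^ 2 * s ≤ T := by
    rw [hT, mul_assoc]
    exact le_mul_of_one_le_left (by positivity) hκ
  have hsT : s ≤ T := hsT1.trans hsT2
  have htot : ∫ x, (f x - c) ^ 2 ∂(mu ρ) ≤
      (9 * (400 * 256 + C₁) + 8 + 2 * Real.sqrt C₄) * κ * fb b d ^ 2 * s := by
    have e1 : 9 * D ≤ 9 * (400 * 256 + C₁) * T := by
      have h5 : κ * r ^ 2 ≤ 400 * 256 * T := by
        rw [hr2, hT]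
        have h6 := mul_le_mul_of_nonneg_left ht2 (mul_nonneg hκ0 hs.le)
        nlinarith
      have h6 : C₁ * fb b d ^ 2 * s ≤ C₁ * T := by
        have := mul_le_mul_of_nonneg_left hsT2 hC₁.le
        linarith [this]
      rw [hDd]
      linarith
    have e2 : 8 * M * ε ^ 2 ≤ 8 * T := by
      linarith
    have e3 : 2 * (Real.sqrt C₄ * M) * ε ≤ 2 * Real.sqrt C₄ * T := by
      have h5 := mul_le_mul_of_nonneg_left (hMε.trans hsT) (show 0 ≤ 2 * Real.sqrt C₄ by positivity)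
      linarith [h5, (by ring : 2 * Real.sqrt C₄ * (M * ε) = 2 * (Real.sqrt C₄ * M) * ε)]
    have e4 : (9 * (400 * 256 + C₁) + 8 + 2 * Real.sqrt C₄) * κ * fb b d ^ 2 * s =
        9 * (400 * 256 + C₁) * T + 8 * T + 2 * Real.sqrt C₄ * T := by
      rw [hT]
      ring
    rw [e4]
    linarith
  -- variance
  have hf0 : Continuous f := hf.continuous
  have hi1 : Integrable f (mu ρ) := Pool.Agent.H888R2.KB.F1x.intg (mu ρ) hball _ hf0
  have hi2 : Integrable (fun x => f x ^ 2) (mu ρ) :=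
    Pool.Agent.H888R2.KB.F1x.intg (mu ρ) hball _ (hf0.pow 2)
  have hexpd : ∫ x, (f x - c) ^ 2 ∂(mu ρ) =
      ∫ x, f x ^ 2 ∂(mu ρ) - 2 * c * ∫ x, f x ∂(mu ρ) + c ^ 2 := by
    have h2 : ∀ x, (f x - c) ^ 2 = f x ^ 2 - 2 * c * f x + c ^ 2 := fun x => by ring
    simp_rw [h2]
    have h3 : ∫ x, (f x ^ 2 - 2 * c * f x + c ^ 2) ∂(mu ρ) =
        ∫ x, (f x ^ 2 - 2 * c * f x) ∂(mu ρ) + ∫ _, c ^ 2 ∂(mu ρ) :=
      integral_add (hi2.sub (hi1.const_mul (2 * c))) (integrable_const _)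
    have h4 : ∫ x, (f x ^ 2 - 2 * c * f x) ∂(mu ρ) =
        ∫ x, f x ^ 2 ∂(mu ρ) - ∫ x, 2 * c * f x ∂(mu ρ) :=
      integral_sub hi2 (hi1.const_mul (2 * c))
    rw [h3, h4, integral_const_mul]
    simp
  have hsq := sq_nonneg (∫ x, f x ∂(mu ρ) - c)
  rw [hexpd] at htot
  nlinarith

end Pool.Agent.W275.US
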