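import Pool.Agent.W275.US.A5
import Pool.Agent.H888R2.KB.F2
import Pool.Agent.H888R2.KB.N2
import Pool.Agent.W22.US.Pol
import Pool.Agent.W22.US.Rad
import Pool.Agent.W440.USMP
import Pool.Agent.W440.USOMEGA
import Pool.Agent.W177.US.ES
import Pool.Agent.W45.US.Ang1
import Pool.Agent.W249.US.Ang
import Pool.Agent.W148.USAngAll
import Pool.Agent.W239.US.G
import Pool.Agent.W216.US.Cov
import Pool.Agent.W216.US.CovZ
import Pool.Agent.W930.USMono

/-!
# KLS for unconditional sums: general support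
-/

set_option autoImplicit false

namespace Pool.Agent.W275.US

open MeasureTheory Set Filter
open scoped ENNReal InnerProductSpace Topology
open Pool.Agent.H212R2.KLS (mu Bdd)
open Pool.Agent.H888R2.KT (LC)
open Pool.Agent.H888R2.KB (fb)

variable {b d : ℕ}

/-- the truncation sets -/
def Bs (p : Fin b → Seminorm ℝ (E d)) (k : ℕ) : Set (X b d) := {x | ∀ i, p i (blk i x) ≤ k}

theorem Bs_closed (p : Fin b → Seminorm ℝ (E d)) (k : ℕ) : IsClosed (Bs p k) := by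
  have h2 : Bs p k = ⋂ i, {x : X b d | p i (blk i x) ≤ k} := by
    unfold Bs
    ext x
    simp
  rw [h2]
  exact isClosed_iInter fun i => isClosed_le ((p_cont (p i)).comp (blk_cont i)) continuous_const

theorem Bs_mono (p : Fin b → Seminorm ℝ (E d)) : Monotone (Bs p) := by
  intro k l hkl x hx i
  exact (hx i).trans (by exact_mod_cast hkl)

theorem Bs_union (p : Fin b → Seminorm ℝ (E d)) : ⋃ k, Bs p k = univ := by
  refine eq_univ_of_forall fun x => ?_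
  obtain ⟨k, hk⟩ := exists_nat_ge (∑ i, p i (blk i x))
  refine mem_iUnion.2 ⟨k, fun i => le_trans ?_ hk⟩
  exact Finset.single_le_sum (f := fun i => p i (blk i x)) (fun j _ => apply_nonneg _ _)
    (Finset.mem_univ i)

theorem Bs_bdd {p : Fin b → Seminorm ℝ (E d)} (hp : ∀ i, Def (p i)) (k : ℕ) :
    ∃ R : ℝ, ∀ x : X b d, R < ‖x‖ → x ∉ Bs p k := by
  have h1 : ∀ i, ∃ C : ℝ, 0 < C ∧ ∀ x, ‖x‖ ≤ C * p i x := fun i => norm_le (hp i)
  choose C hC hC' using h1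
  refine ⟨Real.sqrt (∑ i, (C i * k) ^ 2), fun x hx hcon => ?_⟩
  refine absurd ?_ (not_le.2 hx)
  refine Real.le_sqrt_of_sq_le ?_
  rw [norm_sq_blk]
  refine Finset.sum_le_sum fun i _ => pow_le_pow_left₀ (norm_nonneg _) ?_ 2
  exact (hC' i _).trans (mul_le_mul_of_nonneg_left (hcon i) (hC i).le)

theorem Bs_lim (p : Fin b → Seminorm ℝ (E d)) (μ : Measure (X b d)) {g : X b d → ℝ}
    (hg : Integrable g μ) :
    Tendsto (fun k : ℕ => ∫ x in Bs p k, g x ∂μ) atTop (𝓝 (∫ x, g x ∂μ)) := by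
  have h := tendsto_setIntegral_of_monotone (μ := μ) (f := g)
    (fun k => (Bs_closed p k).measurableSet) (Bs_mono p)
    (by rw [Bs_union]; exact hg.integrableOn)
  rw [Bs_union, setIntegral_univ] at h
  exact h

theorem Bs_mass (p : Fin b → Seminorm ℝ (E d)) (μ : Measure (X b d)) [IsProbabilityMeasure μ] :
    Tendsto (fun k : ℕ => μ.real (Bs p k)) atTop (𝓝 1) := by
  have h := Bs_lim p μ (g := fun _ => (1 : ℝ)) (integrable_const _)
  simpa using h

/-- the data of a normalised truncation -/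
theorem trunc {p : Fin b → Seminorm ℝ (E d)} (hp : ∀ i, Def (p i)) {ρ : X b d → ℝ}
    (h0 : ∀ x, 0 ≤ ρ x) (hm : Measurable ρ)
    (hlc : ∀ x y : X b d, ∀ t : ℝ, 0 < t → t < 1 → ρ x ^ (1 - t) * ρ y ^ t ≤ ρ ((1 - t) • x + t • y))
    (hρr : Rad p ρ) (h1 : mu ρ univ = 1) (k : ℕ) (M : ℝ) (hMd : M = (mu ρ).real (Bs p k))
    (hM : 0 < M) (q : X b d → ℝ) (hq : q = fun x => M⁻¹ * (Bs p k).indicator ρ x) :
    (∀ x, 0 ≤ q x) ∧ Measurable q ∧
    (∀ x y : X b d, ∀ t : ℝ, 0 < t → t < 1 → q x ^ (1 - t) * q y ^ t ≤ q ((1 - t) • x + t • y)) ∧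
    Rad p q ∧ Bdd q ∧ mu q univ = 1 ∧
    (∀ g : X b d → ℝ, ∫ x, g x ∂(mu q) = M⁻¹ * ∫ x in Bs p k, g x ∂(mu ρ)) := by
  have hprob : IsProbabilityMeasure (mu ρ) := ⟨h1⟩
  have hBm := (Bs_closed p k).measurableSet
  have hMi : 0 ≤ M⁻¹ := (inv_pos.2 hM).le
  have hmu := H212R2.KLS.g2_mu ρ h0 hm (Bs p k) hBm M⁻¹ hMi
  rw [← hq] at hmu
  have hi0 : ∀ x, 0 ≤ (Bs p k).indicator ρ x := fun x => Set.indicator_nonneg (fun x _ => h0 x) x
  refine ⟨fun x => ?_, ?_, ?_, ?_, ?_, ?_, ?_⟩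
  · rw [hq]
    exact mul_nonneg hMi (hi0 x)
  · rw [hq]
    exact (hm.indicator hBm).const_mul _
  · intro x y t ht ht1
    rw [hq]
    show (M⁻¹ * (Bs p k).indicator ρ x) ^ (1 - t) * (M⁻¹ * (Bs p k).indicator ρ y) ^ t ≤
      M⁻¹ * (Bs p k).indicator ρ ((1 - t) • x + t • y)
    have ht' : 0 < 1 - t := by linarith
    by_cases hx : x ∈ Bs p k
    · by_cases hy : y ∈ Bs p k
      · have hxy : (1 - t) • x + t • y ∈ Bs p k := by
          intro i
          have e1 : blk i ((1 - t) • x + t • y) = (1 - t) • blk i x + t • blk i y := by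
            ext j
            simp [blk]
          rw [e1]
          calc p i ((1 - t) • blk i x + t • blk i y)
              ≤ p i ((1 - t) • blk i x) + p i (t • blk i y) := map_add_le_add _ _ _
            _ = (1 - t) * p i (blk i x) + t * p i (blk i y) := by
                rw [map_smul_eq_mul, map_smul_eq_mul, Real.norm_of_nonneg ht'.le,
                  Real.norm_of_nonneg ht.le]
            _ ≤ (1 - t) * k + t * k :=
                add_le_add (mul_le_mul_of_nonneg_left (hx i) ht'.le)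
                  (mul_le_mul_of_nonneg_left (hy i) ht.le)
            _ = k := by ring
        rw [indicator_of_mem hx, indicator_of_mem hy, indicator_of_mem hxy,
          Real.mul_rpow hMi (h0 x), Real.mul_rpow hMi (h0 y)]
        have h2 : (M⁻¹) ^ (1 - t) * (M⁻¹) ^ t = M⁻¹ := by
          rw [← Real.rpow_add (inv_pos.2 hM), sub_add_cancel, Real.rpow_one]
        calc (M⁻¹) ^ (1 - t) * ρ x ^ (1 - t) * ((M⁻¹) ^ t * ρ y ^ t)
            = ((M⁻¹) ^ (1 - t) * (M⁻¹) ^ t) * (ρ x ^ (1 - t) * ρ y ^ t) := by ring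
          _ = M⁻¹ * (ρ x ^ (1 - t) * ρ y ^ t) := by rw [h2]
          _ ≤ _ := mul_le_mul_of_nonneg_left (hlc x y t ht ht1) hMi
      · rw [indicator_of_notMem hy, mul_zero, Real.zero_rpow ht.ne', mul_zero]
        exact mul_nonneg hMi (hi0 _)
    · rw [indicator_of_notMem hx, mul_zero, Real.zero_rpow ht'.ne', zero_mul]
      exact mul_nonneg hMi (hi0 _)
  · intro x y hxy
    rw [hq]
    show M⁻¹ * (Bs p k).indicator ρ x = M⁻¹ * (Bs p k).indicator ρ y
    congr 1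
    by_cases hx : x ∈ Bs p k
    · have hy : y ∈ Bs p k := fun i => by
        rw [← hxy i]
        exact hx i
      rw [indicator_of_mem hx, indicator_of_mem hy, hρr x y hxy]
    · have hy : y ∉ Bs p k := fun hy => hx fun i => by
        rw [hxy i]
        exact hy i
      rw [indicator_of_notMem hx, indicator_of_notMem hy]
  · obtain ⟨R, hR⟩ := Bs_bdd hp k
    refine ⟨R, fun x hx => ?_⟩
    rw [hq]
    show M⁻¹ * (Bs p k).indicator ρ x = 0
    rw [indicator_of_notMem (hR x hx), mul_zero]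
  · rw [hmu, Measure.smul_apply, Measure.restrict_apply_univ, smul_eq_mul]
    have h2 : mu ρ (Bs p k) = ENNReal.ofReal M := by
      rw [hMd, Measure.real, ENNReal.ofReal_toReal (measure_ne_top _ _)]
    rw [h2, ← ENNReal.ofReal_mul hMi, inv_mul_cancel₀ hM.ne', ENNReal.ofReal_one]
  · intro g
    rw [hmu, integral_smul_measure, ENNReal.toReal_ofReal hMi, smul_eq_mul]

theorem set_le {ρ : X b d → ℝ} (B : Set (X b d)) {g : X b d → ℝ} (hg : Continuous g)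
    (hg0 : ∀ x, 0 ≤ g x) {a : ℝ} (ha : 0 ≤ a)
    (hga : ∫⁻ x, ENNReal.ofReal (g x) ∂(mu ρ) ≤ ENNReal.ofReal a) :
    ∫ x in B, g x ∂(mu ρ) ≤ a := by
  rw [integral_eq_lintegral_of_nonneg_ae (Eventually.of_forall hg0) hg.aestronglyMeasurable]
  apply ENNReal.toReal_le_of_le_ofReal ha
  exact le_trans (setLIntegral_le_lintegral _ _) hga

theorem var_eq {μ : Measure (X b d)} [IsProbabilityMeasure μ] {f : X b d → ℝ}
    (hf1 : Integrable f μ) (hf2 : Integrable (fun x => f x ^ 2) μ) :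
    ∫ x, (f x - ∫ y, f y ∂μ) ^ 2 ∂μ = ∫ x, f x ^ 2 ∂μ - (∫ x, f x ∂μ) ^ 2 := by
  obtain ⟨a, ha⟩ : ∃ a : ℝ, a = ∫ y, f y ∂μ := ⟨_, rfl⟩
  rw [← ha]
  have h2 : ∀ x, (f x - a) ^ 2 = (f x ^ 2 - 2 * a * f x) + a ^ 2 := fun x => by ring
  simp_rw [h2]
  have h3 : Integrable (fun x => 2 * a * f x) μ := hf1.const_mul _
  have h4 : Integrable (fun x => f x ^ 2 - 2 * a * f x) μ := hf2.sub h3
  rw [integral_add h4 (integrable_const _), integral_sub hf2 h3, integral_const_mul, ← ha]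
  simp
  ring

theorem core' : ∃ C : ℝ, 0 < C ∧ ∀ {b d : ℕ}, 1 ≤ b → 3 ≤ d →
    ∀ κ : ℝ, 1 ≤ κ → ∀ p : Fin b → Seminorm ℝ (E d), (∀ i, Def (p i)) → (∀ i, KLSBody κ (p i)) →
    ∀ ρ : X b d → ℝ, (∀ x, 0 ≤ ρ x) → Measurable ρ →
    (∀ x y : X b d, ∀ t : ℝ, 0 < t → t < 1 → ρ x ^ (1 - t) * ρ y ^ t ≤ ρ ((1 - t) • x + t • y)) →
    Rad p ρ → Bdd ρ → mu ρ univ = 1 →
    ∀ s : ℝ, 0 < s → (∀ θ, ∫ x, ⟪θ, x⟫_ℝ ^ 2 ∂(mu ρ) ≤ s * ‖θ‖ ^ 2) →
    ∀ f : X b d → ℝ, ContDiff ℝ 1 f → (∀ x, ‖fderiv ℝ f x‖ ≤ 1) →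
    ∫ x, f x ^ 2 ∂(mu ρ) - (∫ x, f x ∂(mu ρ)) ^ 2 ≤ C * κ * fb b d ^ 2 * s := by
  have hpol : S_pol := Pool.Agent.W22.US.pol
  have hmp : S_mp := Pool.Agent.W440.USMP.main hpol
  have hang : S_angAll := Pool.Agent.W148.USAngAll.main Pool.Agent.W177.US.ES.main hmp
    (Pool.Agent.W249.US.Ang.main (Pool.Agent.W45.US.main hpol))
  obtain ⟨C, hC, h⟩ := core Pool.Agent.W22.US.rad (Pool.Agent.W440.USOMEGA.main hpol)
    (Pool.Agent.W216.US.Cov.main hmp) Pool.Agent.W216.US.CovZ.main Pool.Agent.W239.US.main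
    hang (Pool.Agent.W505.USDec.main hmp)
  refine ⟨C, hC, ?_⟩
  intro b d hb hd κ hκ p hp hkls ρ h0 hm hlc hρr hbd h1 s hs hmom f hf hf1
  exact h hb hd κ hκ p hp hkls ρ h0 hm hlc hρr
    (Pool.Agent.W930.USMono.main b d p hp ρ h0 hlc hρr) hbd h1 s hs hmom f hf hf1

end Pool.Agent.W275.US
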