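import Pool.Agent.W275.US.A6

/-!
# KLS for unconditional sums: the theorem for general support
-/

set_option autoImplicit false

namespace Pool.Agent.W275.US

open MeasureTheory Set Filter
open scoped ENNReal InnerProductSpace Topology
open Pool.Agent.H212R2.KLS (mu Bdd)
open Pool.Agent.H888R2.KT (LC)
open Pool.Agent.H888R2.KB (fb)

variable {b d : ℕ}

theorem mainb : ∃ C : ℝ, 0 < C ∧ ∀ {b d : ℕ}, 1 ≤ b → 3 ≤ d →
    ∀ κ : ℝ, 1 ≤ κ → ∀ p : Fin b → Seminorm ℝ (E d), (∀ i, Def (p i)) → (∀ i, KLSBody κ (p i)) →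
    ∀ ρ : X b d → ℝ, (∀ x, 0 ≤ ρ x) → Measurable ρ →
    (∀ x y : X b d, ∀ t : ℝ, 0 < t → t < 1 → ρ x ^ (1 - t) * ρ y ^ t ≤ ρ ((1 - t) • x + t • y)) →
    Rad p ρ → mu ρ univ = 1 →
    ∀ s : ℝ, 0 < s →
    (∀ θ : X b d, ∫⁻ x, ENNReal.ofReal (⟪θ, x⟫_ℝ ^ 2) ∂(mu ρ) ≤ ENNReal.ofReal (s * ‖θ‖ ^ 2)) →
    ∀ f : X b d → ℝ, ContDiff ℝ 1 f →
    ((∀ x, ‖fderiv ℝ f x‖ ≤ 1) → MemLp f 2 (mu ρ) ∧
      ∫ x, (f x - ∫ y, f y ∂(mu ρ)) ^ 2 ∂(mu ρ) ≤ C * κ * fb b d ^ 2 * s) ∧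
    ((∀ x, |f x| ≤ 1) →
      ENNReal.ofReal ((∫ x, (f x - ∫ y, f y ∂(mu ρ)) ^ 2 ∂(mu ρ)) ^ 2) ≤
        ENNReal.ofReal (8 * C * κ * fb b d ^ 2 * s) *
          ∫⁻ x, ENNReal.ofReal (‖fderiv ℝ f x‖ ^ 2) ∂(mu ρ)) := by
  obtain ⟨C, hC, hcore⟩ := core'
  refine ⟨C, hC, ?_⟩
  intro b d hb1 hd κ hκ p hp hkls ρ h0 hm hlc hρr h1 s hs hmom f hf
  have hprob : IsProbabilityMeasure (mu ρ) := ⟨h1⟩
  have hκ0 : 0 < κ := by linarith
  have hfb0 : 0 < fb b d := by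
    unfold fb
    have : 0 ≤ Real.log b := Real.log_nonneg (by exact_mod_cast hb1)
    positivity
  have hev : ∀ᶠ k : ℕ in atTop, 0 < (mu ρ).real (Bs p k) :=
    (Bs_mass p (mu ρ)).eventually (lt_mem_nhds one_pos)
  have hM1 : Tendsto (fun k : ℕ => ((mu ρ).real (Bs p k))⁻¹) atTop (𝓝 1) := by
    have := (Bs_mass p (mu ρ)).inv₀ one_ne_zero
    rwa [inv_one] at this
  -- the second moments of the truncations
  have hmom' : ∀ (k : ℕ) (q : X b d → ℝ), 0 < (mu ρ).real (Bs p k) →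
      (∀ g : X b d → ℝ, ∫ x, g x ∂(mu q) = ((mu ρ).real (Bs p k))⁻¹ * ∫ x in Bs p k, g x ∂(mu ρ)) →
      ∀ θ : X b d, ∫ x, ⟪θ, x⟫_ℝ ^ 2 ∂(mu q) ≤ (s * ((mu ρ).real (Bs p k))⁻¹) * ‖θ‖ ^ 2 := by
    intro k q hk hint θ
    rw [hint]
    have h2 := set_le (Bs p k) (g := fun x => ⟪θ, x⟫_ℝ ^ 2) (by fun_prop) (fun x => sq_nonneg _)
      (a := s * ‖θ‖ ^ 2) (by positivity) (hmom θ)
    calc ((mu ρ).real (Bs p k))⁻¹ * ∫ x in Bs p k, ⟪θ, x⟫_ℝ ^ 2 ∂(mu ρ)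
        ≤ ((mu ρ).real (Bs p k))⁻¹ * (s * ‖θ‖ ^ 2) :=
          mul_le_mul_of_nonneg_left h2 (inv_pos.2 hk).le
      _ = (s * ((mu ρ).real (Bs p k))⁻¹) * ‖θ‖ ^ 2 := by ring
  constructor
  · intro hfd
    have hfL : MemLp f 2 (mu ρ) := by
      have h2 := (memLp_const (μ := mu ρ) (p := 2) (|f 0|)).add
        (Pool.Agent.H888R2.KB.F2x.norm_memLp (mu ρ) s hmom)
      refine h2.mono hf.continuous.aestronglyMeasurable (Eventually.of_forall fun x => ?_)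
      have h3 := Pool.Agent.H888R2.KB.F2x.lip f hf hfd x
      show ‖f x‖ ≤ ‖|f 0| + ‖x‖‖
      rw [Real.norm_eq_abs (f x), Real.norm_of_nonneg (by positivity : 0 ≤ |f 0| + ‖x‖)]
      exact h3
    refine ⟨hfL, ?_⟩
    have hf2 : Integrable (fun x => f x ^ 2) (mu ρ) := hfL.integrable_sq
    have hf1 : Integrable f (mu ρ) := hfL.integrable (by norm_num)
    have key : ∀ᶠ k : ℕ in atTop,
        ((mu ρ).real (Bs p k))⁻¹ * (∫ x in Bs p k, f x ^ 2 ∂(mu ρ)) -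
          (((mu ρ).real (Bs p k))⁻¹ * ∫ x in Bs p k, f x ∂(mu ρ)) ^ 2 ≤
        C * κ * fb b d ^ 2 * (s * ((mu ρ).real (Bs p k))⁻¹) := by
      filter_upwards [hev] with k hk
      obtain ⟨q, hq⟩ : ∃ q : X b d → ℝ,
        q = fun x => ((mu ρ).real (Bs p k))⁻¹ * (Bs p k).indicator ρ x := ⟨_, rfl⟩
      obtain ⟨t1, t2, t3, t4, t5, t6, t7⟩ := trunc hp h0 hm hlc hρr h1 k _ rfl hk q hq
      have h3 := hcore hb1 hd κ hκ p hp hkls q t1 t2 t3 t4 t5 t6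
        (s * ((mu ρ).real (Bs p k))⁻¹) (mul_pos hs (inv_pos.2 hk)) (hmom' k q hk t7) f hf hfd
      rw [t7, t7] at h3
      exact h3
    have hL : Tendsto (fun k : ℕ =>
        ((mu ρ).real (Bs p k))⁻¹ * (∫ x in Bs p k, f x ^ 2 ∂(mu ρ)) -
          (((mu ρ).real (Bs p k))⁻¹ * ∫ x in Bs p k, f x ∂(mu ρ)) ^ 2)
        atTop (𝓝 (1 * (∫ x, f x ^ 2 ∂(mu ρ)) - (1 * ∫ x, f x ∂(mu ρ)) ^ 2)) :=
      (hM1.mul (Bs_lim p (mu ρ) hf2)).sub ((hM1.mul (Bs_lim p (mu ρ) hf1)).pow 2)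
    have hR : Tendsto (fun k : ℕ => C * κ * fb b d ^ 2 * (s * ((mu ρ).real (Bs p k))⁻¹))
        atTop (𝓝 (C * κ * fb b d ^ 2 * (s * 1))) :=
      (hM1.const_mul s).const_mul (C * κ * fb b d ^ 2)
    have hfin := le_of_tendsto_of_tendsto hL hR key
    rw [var_eq hf1 hf2]
    simpa using hfin
  · intro hfb
    by_cases hI : ∫⁻ x, ENNReal.ofReal (‖fderiv ℝ f x‖ ^ 2) ∂(mu ρ) = ⊤
    · rw [hI, ENNReal.mul_top (by
        rw [Ne, ENNReal.ofReal_eq_zero, not_le]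
        positivity)]
      exact le_top
    obtain ⟨I, hIdef⟩ : ∃ I : ℝ, I = (∫⁻ x, ENNReal.ofReal (‖fderiv ℝ f x‖ ^ 2) ∂(mu ρ)).toReal :=
      ⟨_, rfl⟩
    have hI0 : 0 ≤ I := by rw [hIdef]; exact ENNReal.toReal_nonneg
    have hgrad_meas : Continuous fun x => ‖fderiv ℝ f x‖ ^ 2 :=
      ((hf.continuous_fderiv (by norm_num)).norm).pow 2
    have hfL : MemLp f 2 (mu ρ) :=
      MemLp.of_bound hf.continuous.aestronglyMeasurable 1 (Eventually.of_forall fun x => by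
        rw [Real.norm_eq_abs]; exact hfb x)
    have hf2 : Integrable (fun x => f x ^ 2) (mu ρ) := hfL.integrable_sq
    have hf1 : Integrable f (mu ρ) := hfL.integrable (by norm_num)
    have key : ∀ᶠ k : ℕ in atTop,
        (((mu ρ).real (Bs p k))⁻¹ * (∫ x in Bs p k, f x ^ 2 ∂(mu ρ)) -
          (((mu ρ).real (Bs p k))⁻¹ * ∫ x in Bs p k, f x ∂(mu ρ)) ^ 2) ^ 2 ≤
        8 * (C * κ * fb b d ^ 2 * (s * ((mu ρ).real (Bs p k))⁻¹)) *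
          (((mu ρ).real (Bs p k))⁻¹ * I) := by
      filter_upwards [hev] with k hk
      obtain ⟨q, hq⟩ : ∃ q : X b d → ℝ,
        q = fun x => ((mu ρ).real (Bs p k))⁻¹ * (Bs p k).indicator ρ x := ⟨_, rfl⟩
      obtain ⟨t1, t2, t3, t4, t5, t6, t7⟩ := trunc hp h0 hm hlc hρr h1 k _ rfl hk q hq
      have hlcq : LC q := ⟨t1, t2, t3, t5, by rw [t6]; exact ENNReal.one_ne_top, fun h => by
        rw [h] at t6; simp at t6⟩
      have h3 := Pool.Agent.H888R2.KB.nash_lip hlcq t6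
        (C * κ * fb b d ^ 2 * (s * ((mu ρ).real (Bs p k))⁻¹)) (by
          have := inv_pos.2 hk
          positivity) (fun g hg hg1 => hcore hb1 hd κ hκ p hp hkls q t1 t2 t3 t4 t5 t6
            (s * ((mu ρ).real (Bs p k))⁻¹) (mul_pos hs (inv_pos.2 hk)) (hmom' k q hk t7) g hg hg1)
        f hf hfb
      rw [t7, t7, t7] at h3
      refine h3.trans ?_
      have h4 : ∫ x in Bs p k, ‖fderiv ℝ f x‖ ^ 2 ∂(mu ρ) ≤ I := by
        apply set_le _ hgrad_meas (fun x => sq_nonneg _) hI0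
        rw [hIdef, ENNReal.ofReal_toReal hI]
      have hMi : 0 ≤ ((mu ρ).real (Bs p k))⁻¹ := (inv_pos.2 hk).le
      have h5 : 0 ≤ 8 * (C * κ * fb b d ^ 2 * (s * ((mu ρ).real (Bs p k))⁻¹)) := by positivity
      exact mul_le_mul_of_nonneg_left (mul_le_mul_of_nonneg_left h4 hMi) h5
    have hL : Tendsto (fun k : ℕ =>
        (((mu ρ).real (Bs p k))⁻¹ * (∫ x in Bs p k, f x ^ 2 ∂(mu ρ)) -
          (((mu ρ).real (Bs p k))⁻¹ * ∫ x in Bs p k, f x ∂(mu ρ)) ^ 2) ^ 2)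
        atTop (𝓝 ((1 * (∫ x, f x ^ 2 ∂(mu ρ)) - (1 * ∫ x, f x ∂(mu ρ)) ^ 2) ^ 2)) :=
      ((hM1.mul (Bs_lim p (mu ρ) hf2)).sub ((hM1.mul (Bs_lim p (mu ρ) hf1)).pow 2)).pow 2
    have hR : Tendsto (fun k : ℕ =>
          8 * (C * κ * fb b d ^ 2 * (s * ((mu ρ).real (Bs p k))⁻¹)) *
            (((mu ρ).real (Bs p k))⁻¹ * I))
        atTop (𝓝 (8 * (C * κ * fb b d ^ 2 * (s * 1)) * (1 * I))) :=
      (((hM1.const_mul s).const_mul (C * κ * fb b d ^ 2)).const_mul 8).mul (hM1.mul_const I)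
    have hfin := le_of_tendsto_of_tendsto hL hR key
    rw [var_eq hf1 hf2]
    have h6 : (∫ x, f x ^ 2 ∂(mu ρ) - (∫ x, f x ∂(mu ρ)) ^ 2) ^ 2 ≤
        8 * C * κ * fb b d ^ 2 * s * I := by
      have : 8 * (C * κ * fb b d ^ 2 * (s * 1)) * (1 * I) = 8 * C * κ * fb b d ^ 2 * s * I := by
        ring
      rw [this] at hfin
      simpa using hfin
    calc ENNReal.ofReal ((∫ x, f x ^ 2 ∂(mu ρ) - (∫ x, f x ∂(mu ρ)) ^ 2) ^ 2)
        ≤ ENNReal.ofReal (8 * C * κ * fb b d ^ 2 * s * I) := ENNReal.ofReal_le_ofReal h6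
      _ = ENNReal.ofReal (8 * C * κ * fb b d ^ 2 * s) *
          ∫⁻ x, ENNReal.ofReal (‖fderiv ℝ f x‖ ^ 2) ∂(mu ρ) := by
        rw [ENNReal.ofReal_mul (by positivity), hIdef, ENNReal.ofReal_toReal hI]

end Pool.Agent.W275.US
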