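import Mathlib

/-!
# KLS for unconditional sums: definitions

`b` blocks of dimension `d`; the `i`-th block carries a norm `p i` (a seminorm vanishing only at
`0`), with unit ball `K_i = {p i ≤ 1}`.
-/

set_option autoImplicit false

namespace Pool.Agent.W275.US

open MeasureTheory Set
open scoped ENNReal InnerProductSpace

/-- one block `ℝ^d` -/
abbrev E (d : ℕ) : Type := EuclideanSpace ℝ (Fin d)

/-- `(ℝ^d)^b` with the Euclidean structure -/
abbrev X (b d : ℕ) : Type := EuclideanSpace ℝ (Fin b × Fin d)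

/-- one block of the auxiliary space (`d × 1` matrices) -/
abbrev W (d : ℕ) : Type := EuclideanSpace ℝ (Fin d × Fin 1)

/-- the auxiliary space `(ℝ^d)^b` (tuples of `d × 1` matrices) -/
abbrev Z (b d : ℕ) : Type := EuclideanSpace ℝ (Fin b × (Fin d × Fin 1))

variable {b d : ℕ}

/-- the block `i` of `x` -/
noncomputable def blk (i : Fin b) (x : X b d) : E d := WithLp.toLp 2 fun k => x (i, k)

/-- the vector with blocks `v i` -/
noncomputable def cat (v : Fin b → E d) : X b d := WithLp.toLp 2 fun q => v q.1 q.2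

/-- the block `i` of `z` -/
noncomputable def zblk (i : Fin b) (z : Z b d) : W d := WithLp.toLp 2 fun k => z (i, k)

/-- replace the block `i` of `x` by `y` -/
noncomputable def rep (i : Fin b) (y : E d) (x : X b d) : X b d :=
  cat (Function.update (fun j => blk j x) i y)

/-- the vector `y` in the block `i`, zero elsewhere -/
noncomputable def inj (i : Fin b) : E d →L[ℝ] X b d :=
  LinearMap.toContinuousLinearMap
    { toFun := fun y => WithLp.toLp 2 fun q => if q.1 = i then y q.2 else 0
      map_add' := fun x y => by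
        ext q
        by_cases h : q.1 = i <;> simp [h]
      map_smul' := fun c x => by
        ext q
        by_cases h : q.1 = i <;> simp [h] }

/-- the seminorm is a norm -/
def Def (p : Seminorm ℝ (E d)) : Prop := ∀ x, p x = 0 → x = 0

/-- the unit ball -/
def ball1 (p : Seminorm ℝ (E d)) : Set (E d) := {x | p x ≤ 1}

/-- uniform probability measure on the unit ball `{p ≤ 1}` -/
noncomputable def unif (p : Seminorm ℝ (E d)) : Measure (E d) :=
  ProbabilityTheory.cond volume (ball1 p)

/-- the direction of `u`: the point `u / p u` of the boundary of the unit ball (`0` if `u = 0`) -/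
noncomputable def dir (p : Seminorm ℝ (E d)) (u : E d) : E d := (p u)⁻¹ • u

/-- independent uniform points of the unit balls -/
noncomputable def uu (p : Fin b → Seminorm ℝ (E d)) : Measure (Fin b → E d) :=
  Measure.pi fun i => unif (p i)

/-- replace the directions of all blocks of `x` by those of `u` (the norms are kept) -/
noncomputable def turn (p : Fin b → Seminorm ℝ (E d)) (u : Fin b → E d) (x : X b d) : X b d :=
  cat fun i => p i (blk i x) • dir (p i) (u i)

/-- average of `f` over all directions, the norms `p i (blk i x)` being fixed -/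
noncomputable def avg (p : Fin b → Seminorm ℝ (E d)) (f : X b d → ℝ) (x : X b d) : ℝ :=
  ∫ u, f (turn p u x) ∂(uu p)

/-- the measure with density `ρ` -/
noncomputable def dens {F : Type} [MeasureSpace F] (ρ : F → ℝ) : Measure F :=
  volume.withDensity fun x => ENNReal.ofReal (ρ x)

/-- Poincare inequality with constant `K` -/
def Poin (ν : Measure (E d)) (K : ℝ) : Prop :=
  ∀ g : E d → ℝ, ContDiff ℝ 1 g →
    ∫ u, g u ^ 2 ∂ν - (∫ u, g u ∂ν) ^ 2 ≤ K * ∫ u, ‖fderiv ℝ g u‖ ^ 2 ∂ν

/-- `ρ` depends only on the norms of the blocks -/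
def Rad (p : Fin b → Seminorm ℝ (E d)) (ρ : X b d → ℝ) : Prop :=
  ∀ x y, (∀ i, p i (blk i x) = p i (blk i y)) → ρ x = ρ y

/-! ### basic facts -/

theorem p_le (p : Seminorm ℝ (E d)) : ∃ C : ℝ, 0 < C ∧ ∀ x, p x ≤ C * ‖x‖ := by
  refine ⟨1 + ∑ k, p (EuclideanSpace.single k 1), ?_, ?_⟩
  · have : 0 ≤ ∑ k, p (EuclideanSpace.single k 1) := Finset.sum_nonneg fun k _ => apply_nonneg p _
    linarith
  intro x
  have hx : x = ∑ k, x k • (EuclideanSpace.single k (1 : ℝ) : E d) := by
    ext j
    simp [Finset.sum_apply, Pi.single_apply]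
  calc p x = p (∑ k, x k • (EuclideanSpace.single k (1 : ℝ) : E d)) := by rw [← hx]
    _ ≤ ∑ k, p (x k • (EuclideanSpace.single k (1 : ℝ) : E d)) :=
        Finset.le_sum_of_subadditive p (map_zero p).le (map_add_le_add p) _ _
    _ = ∑ k, |x k| * p (EuclideanSpace.single k (1 : ℝ)) := by
        refine Finset.sum_congr rfl fun k _ => ?_
        rw [map_smul_eq_mul, Real.norm_eq_abs]
    _ ≤ ∑ k, ‖x‖ * p (EuclideanSpace.single k (1 : ℝ)) := by
        refine Finset.sum_le_sum fun k _ => mul_le_mul_of_nonneg_right ?_ (apply_nonneg p _)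
        rw [← Real.norm_eq_abs]
        exact PiLp.norm_apply_le x k
    _ = (∑ k, p (EuclideanSpace.single k (1 : ℝ))) * ‖x‖ := by
        rw [← Finset.mul_sum, mul_comm]
    _ ≤ (1 + ∑ k, p (EuclideanSpace.single k (1 : ℝ))) * ‖x‖ :=
        mul_le_mul_of_nonneg_right (by linarith) (norm_nonneg x)

theorem p_cont (p : Seminorm ℝ (E d)) : Continuous p := by
  obtain ⟨C, hC0, hC⟩ := p_le p
  rw [continuous_iff_continuousAt]
  intro x
  rw [ContinuousAt, tendsto_iff_norm_sub_tendsto_zero]
  refine squeeze_zero (fun y => norm_nonneg _) (fun y => ?_)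
    (g := fun y => C * ‖y - x‖) ?_
  · rw [Real.norm_eq_abs]
    exact (abs_sub_map_le_sub p y x).trans (hC _)
  · have : Continuous fun y : E d => C * ‖y - x‖ := by fun_prop
    have h := this.tendsto x
    simpa using h

theorem norm_le {p : Seminorm ℝ (E d)} (hp : Def p) : ∃ C : ℝ, 0 < C ∧ ∀ x, ‖x‖ ≤ C * p x := by
  rcases Nat.eq_zero_or_pos d with rfl | hd
  · refine ⟨1, one_pos, fun x => ?_⟩
    have : x = 0 := Subsingleton.elim _ _
    subst this
    simp
  have hne : (Metric.sphere (0 : E d) 1).Nonempty := by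
    refine ⟨EuclideanSpace.single ⟨0, hd⟩ 1, ?_⟩
    simp
  obtain ⟨x0, hx0, hmin⟩ := (isCompact_sphere (0 : E d) 1).exists_isMinOn hne
    (p_cont p).continuousOn
  have hx01 : ‖x0‖ = 1 := by simpa using hx0
  have hpos : 0 < p x0 := by
    rcases (apply_nonneg p x0).lt_or_eq with h | h
    · exact h
    · have := hp x0 h.symm
      rw [this] at hx01
      simp at hx01
  refine ⟨(p x0)⁻¹, inv_pos.2 hpos, fun x => ?_⟩
  rcases eq_or_ne x 0 with rfl | hx
  · simp
  have hn : 0 < ‖x‖ := norm_pos_iff.2 hx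
  have h1 : ‖x‖⁻¹ • x ∈ Metric.sphere (0 : E d) 1 := by
    simp [norm_smul, hn.ne']
  have h2 : p x0 ≤ p (‖x‖⁻¹ • x) := hmin h1
  rw [map_smul_eq_mul, Real.norm_eq_abs, abs_of_pos (inv_pos.2 hn)] at h2
  rw [inv_mul_eq_div, le_div_iff₀ hpos]
  rw [inv_mul_eq_div, le_div_iff₀ hn] at h2
  linarith [mul_comm (p x0) ‖x‖]

theorem ball1_meas (p : Seminorm ℝ (E d)) : MeasurableSet (ball1 p) :=
  (isClosed_le (p_cont p) continuous_const).measurableSet

theorem ball1_bdd {p : Seminorm ℝ (E d)} (hp : Def p) : ∃ R : ℝ, ball1 p ⊆ Metric.closedBall 0 R := by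
  obtain ⟨C, hC0, hC⟩ := norm_le hp
  refine ⟨C, fun x hx => ?_⟩
  have hx1 : p x ≤ 1 := hx
  have := hC x
  rw [mem_closedBall_zero_iff]
  nlinarith

theorem ball1_compact {p : Seminorm ℝ (E d)} (hp : Def p) : IsCompact (ball1 p) := by
  obtain ⟨R, hR⟩ := ball1_bdd hp
  exact (isCompact_closedBall 0 R).of_isClosed_subset
    (isClosed_le (p_cont p) continuous_const) hR

theorem ball1_vol {p : Seminorm ℝ (E d)} (hp : Def p) :
    0 < volume (ball1 p) ∧ volume (ball1 p) < ⊤ := by
  constructor
  · obtain ⟨C, hC0, hC⟩ := p_le p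
    refine lt_of_lt_of_le (Metric.measure_ball_pos volume (0 : E d) (inv_pos.2 hC0))
      (measure_mono fun x hx => ?_)
    have h1 : ‖x‖ < C⁻¹ := by simpa using hx
    show p x ≤ 1
    refine (hC x).trans ?_
    have h2 := mul_lt_mul_of_pos_left h1 hC0
    rw [mul_inv_cancel₀ hC0.ne'] at h2
    exact h2.le
  · exact (ball1_compact hp).measure_lt_top

theorem unif_prob {p : Seminorm ℝ (E d)} (hp : Def p) : IsProbabilityMeasure (unif p) :=
  ProbabilityTheory.cond_isProbabilityMeasure_of_finite (ball1_vol hp).1.ne' (ball1_vol hp).2.ne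

theorem unif_ball {p : Seminorm ℝ (E d)} : ∀ᵐ u ∂(unif p), p u ≤ 1 := by
  unfold unif ProbabilityTheory.cond
  exact Measure.ae_smul_measure (ae_restrict_mem (ball1_meas p)) _

theorem unif_ne {p : Seminorm ℝ (E d)} (hd : 1 ≤ d) : ∀ᵐ u ∂(unif p), u ≠ 0 := by
  unfold unif ProbabilityTheory.cond
  refine Measure.ae_smul_measure (ae_restrict_of_ae ?_) _
  have : Nontrivial (E d) := by
    have : Nonempty (Fin d) := ⟨⟨0, hd⟩⟩
    infer_instance
  exact Measure.ae_ne volume 0

theorem p_dir {p : Seminorm ℝ (E d)} (hp : Def p) {u : E d} (hu : u ≠ 0) : p (dir p u) = 1 := by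
  have h : 0 < p u := by
    rcases (apply_nonneg p u).lt_or_eq with h | h
    · exact h
    · exact absurd (hp u h.symm) hu
  unfold dir
  rw [map_smul_eq_mul, Real.norm_eq_abs, abs_of_pos (inv_pos.2 h), inv_mul_cancel₀ h.ne']

theorem blk_cat (v : Fin b → E d) (i : Fin b) : blk i (cat v) = v i := rfl

theorem cat_blk (x : X b d) : cat (fun i => blk i x) = x := rfl

end Pool.Agent.W275.US
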