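import Pool.Agent.W275.US.Defs

/-!
# KLS for unconditional sums: statements of the parts
-/

set_option autoImplicit false

namespace Pool.Agent.W275.US

open MeasureTheory Set
open scoped ENNReal InnerProductSpace

/-- polar decomposition in one block -/
def S_pol : Prop := ∀ (d : ℕ), 1 ≤ d → ∀ p : Seminorm ℝ (E d), Def p →
  MeasurePreserving (fun q : E d × E d => p q.1 • dir p q.2)
    ((volume : Measure (E d)).prod (unif p)) volume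

/-- polar decomposition in all blocks -/
def S_mp : Prop := ∀ (b d : ℕ), 1 ≤ d → ∀ p : Fin b → Seminorm ℝ (E d), (∀ i, Def (p i)) →
  MeasurePreserving (fun q : X b d × (Fin b → E d) => turn p q.2 q.1)
    ((volume : Measure (X b d)).prod (uu p)) volume

/-- the law of the norms of the blocks under Lebesgue measure is, up to a constant, the same as for
Euclidean norms -/
def S_rad : Prop := ∀ (b d : ℕ), 1 ≤ d → ∀ p : Fin b → Seminorm ℝ (E d), (∀ i, Def (p i)) →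
  ∀ τ : Fin b → ℝ, (∀ i, 0 < τ i) → ∃ c : ℝ≥0∞, c ≠ 0 ∧ c ≠ ⊤ ∧
    (volume : Measure (X b d)).map (fun x i => p i (blk i x)) =
      c • (volume : Measure (Z b d)).map (fun z i => τ i * ‖zblk i z‖)

/-- Efron-Stein inequality -/
def S_es : Prop := ∀ (b : ℕ) (α : Type) [MeasurableSpace α] (ν : Fin b → Measure α)
  [∀ i, IsProbabilityMeasure (ν i)] (h : (Fin b → α) → ℝ), Measurable h →
  (∃ C : ℝ, ∀ u, |h u| ≤ C) →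
  ∫ u, h u ^ 2 ∂(Measure.pi ν) - (∫ u, h u ∂(Measure.pi ν)) ^ 2 ≤
    ∑ i, ∫ u, (h u - ∫ v, h (Function.update u i v) ∂(ν i)) ^ 2 ∂(Measure.pi ν)

/-- the angular part of the variance, one block -/
def S_ang1 : Prop := ∀ (d : ℕ), 1 ≤ d → ∀ p : Seminorm ℝ (E d), Def p → ∀ K a : ℝ, 0 ≤ K → 0 < a →
  Poin (unif p) K → ∀ w : E d → ℝ, Measurable w → (∀ y, 0 ≤ w y) →
  (∀ y y', p y ≤ p y' → w y' ≤ w y) → (∀ y, a < p y → w y = 0) →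
  ∀ g : E d → ℝ, ContDiff ℝ 1 g →
  ∫ y, (g y - ∫ v, g (p y • dir p v) ∂(unif p)) ^ 2 * w y ≤
    K * a ^ 2 * ∫ y, ‖fderiv ℝ g y‖ ^ 2 * w y

/-- the angular part of the variance, one of many blocks -/
def S_ang : Prop := ∀ (b d : ℕ), 1 ≤ d → ∀ p : Fin b → Seminorm ℝ (E d), (∀ i, Def (p i)) →
  ∀ (i : Fin b) (K a : ℝ), 0 ≤ K → 0 < a → Poin (unif (p i)) K →
  ∀ ρ : X b d → ℝ, Measurable ρ → (∀ x, 0 ≤ ρ x) → Integrable ρ →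
  (∃ R : ℝ, ∀ x, R < ‖x‖ → ρ x = 0) →
  (∀ x y : X b d, (∀ j, p j (blk j x) ≤ p j (blk j y)) → ρ y ≤ ρ x) →
  (∀ x, a < p i (blk i x) → ρ x = 0) →
  ∀ f : X b d → ℝ, ContDiff ℝ 1 f →
  ∫ x, (f x - ∫ v, f (rep i (p i (blk i x) • dir (p i) v) x) ∂(unif (p i))) ^ 2 * ρ x ≤
    K * a ^ 2 * ∫ x, ‖(fderiv ℝ f x).comp (inj i)‖ ^ 2 * ρ x

/-- the angular part of the variance, all blocks -/
def S_angAll : Prop := ∀ (b d : ℕ), 1 ≤ d → ∀ p : Fin b → Seminorm ℝ (E d), (∀ i, Def (p i)) →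
  ∀ (K a : Fin b → ℝ), (∀ i, 0 ≤ K i) → (∀ i, 0 < a i) → (∀ i, Poin (unif (p i)) (K i)) →
  ∀ ρ : X b d → ℝ, Measurable ρ → (∀ x, 0 ≤ ρ x) → Integrable ρ →
  (∃ R : ℝ, ∀ x, R < ‖x‖ → ρ x = 0) →
  (∀ x y : X b d, (∀ j, p j (blk j x) ≤ p j (blk j y)) → ρ y ≤ ρ x) →
  (∀ i x, a i < p i (blk i x) → ρ x = 0) →
  ∀ f : X b d → ℝ, ContDiff ℝ 1 f →
  ∫ x, (f x - avg p f x) ^ 2 * ρ x ≤
    ∑ i, K i * a i ^ 2 * ∫ x, ‖(fderiv ℝ f x).comp (inj i)‖ ^ 2 * ρ x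

/-- decomposition of the second moment into angular and radial part -/
def S_dec : Prop := ∀ (b d : ℕ), 1 ≤ d → ∀ p : Fin b → Seminorm ℝ (E d), (∀ i, Def (p i)) →
  ∀ ρ : X b d → ℝ, Measurable ρ → (∀ x, 0 ≤ ρ x) → Integrable ρ →
  (∃ R : ℝ, ∀ x, R < ‖x‖ → ρ x = 0) → Rad p ρ → ∀ f : X b d → ℝ, Continuous f → ∀ c : ℝ,
  ∫ x, (f x - c) ^ 2 * ρ x = ∫ x, (f x - avg p f x) ^ 2 * ρ x + ∫ x, (avg p f x - c) ^ 2 * ρ x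

/-- the average of `f` over all directions, as a function of regularised radii -/
noncomputable def G {b d : ℕ} (p : Fin b → Seminorm ℝ (E d)) (τ : Fin b → ℝ) (f : X b d → ℝ)
    (η : ℝ) (z : Z b d) : ℝ :=
  ∫ u, f (cat fun i => (τ i * Real.sqrt (‖zblk i z‖ ^ 2 + η ^ 2)) • dir (p i) (u i)) ∂(uu p)

/-- the regularised radial average is `C¹` and Lipschitz -/
def S_G : Prop := ∀ (b d : ℕ), 1 ≤ d → ∀ p : Fin b → Seminorm ℝ (E d), (∀ i, Def (p i)) →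
  ∀ τ : Fin b → ℝ, (∀ i, 0 < τ i) → ∀ D : ℝ, 0 < D →
  (∀ i, τ i ^ 2 * ∫ u, ‖dir (p i) u‖ ^ 2 ∂(unif (p i)) ≤ D) →
  ∀ f : X b d → ℝ, ContDiff ℝ 1 f → (∀ x, ‖fderiv ℝ f x‖ ≤ 1) →
  ∀ η : ℝ, 0 < η → ContDiff ℝ 1 (G p τ f η) ∧
    (∀ z, ‖fderiv ℝ (G p τ f η) z‖ ≤ Real.sqrt D) ∧
    ∀ z, |G p τ f η z - G p τ f 0 z| ≤ η * Real.sqrt (b * D)

/-- the second moment of the direction -/
def S_omega : Prop := ∀ (d : ℕ), 1 ≤ d → ∀ p : Seminorm ℝ (E d), Def p →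
  ∫ u, ‖dir p u‖ ^ 2 ∂(unif p) ≤ 8 * ∫ u, ‖u‖ ^ 2 ∂(unif p)

/-- second moments of the norms -/
def S_cov : Prop := ∀ (b d : ℕ), 1 ≤ d → ∀ p : Fin b → Seminorm ℝ (E d), (∀ i, Def (p i)) →
  ∀ ρ : X b d → ℝ, Measurable ρ → (∀ x, 0 ≤ ρ x) → Integrable ρ →
  (∃ R : ℝ, ∀ x, R < ‖x‖ → ρ x = 0) → Rad p ρ → ∀ (i : Fin b) (v : E d),
  (∫ u, ⟪v, u⟫_ℝ ^ 2 ∂(unif (p i))) * ∫ x, p i (blk i x) ^ 2 * ρ x ≤
    ∫ x, ⟪(inj i v : X b d), x⟫_ℝ ^ 2 * ρ x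

/-- a log-concave density depending only on the norms of the blocks is monotone in them -/
def S_mono : Prop := ∀ (b d : ℕ) (p : Fin b → Seminorm ℝ (E d)), (∀ i, Def (p i)) →
  ∀ ρ : X b d → ℝ, (∀ x, 0 ≤ ρ x) →
  (∀ x y : X b d, ∀ t : ℝ, 0 < t → t < 1 → ρ x ^ (1 - t) * ρ y ^ t ≤ ρ ((1 - t) • x + t • y)) →
  Rad p ρ → ∀ x y : X b d, (∀ j, p j (blk j x) ≤ p j (blk j y)) → ρ y ≤ ρ x

/-- the covariance of a density depending only on the Euclidean norms of the blocks -/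
def S_covZ : Prop := ∀ (b d : ℕ), 1 ≤ d → ∀ ρ : Z b d → ℝ, Measurable ρ → (∀ z, 0 ≤ ρ z) →
  Integrable ρ → (∃ R : ℝ, ∀ z, R < ‖z‖ → ρ z = 0) →
  (∀ z z' : Z b d, (∀ i, ‖zblk i z‖ = ‖zblk i z'‖) → ρ z = ρ z') →
  ∀ T : ℝ, (∀ i, ∫ z, ‖zblk i z‖ ^ 2 * ρ z ≤ T) → ∀ θ : Z b d,
  ∫ z, ⟪θ, z⟫_ℝ ^ 2 * ρ z ≤ T / d * ‖θ‖ ^ 2

end Pool.Agent.W275.US
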